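import Mathlib

/-!
Counting matchings of a finite simple graph: matchings, uncovered vertices, insertion of an edge.
-/

namespace Pool.Agent.Lib.MP_eeed5c_co

open Finset

open scoped Classical in
/-- The matchings with `k` edges. -/
noncomputable def mats {V : Type*} [Fintype V] (G : SimpleGraph V) (k : ℕ) :
    Finset (Finset (Sym2 V)) :=
  univ.filter fun s => (↑s : Set (Sym2 V)) ⊆ G.edgeSet ∧ s.card = k ∧
    (↑s : Set (Sym2 V)).Pairwise (fun e f => ∀ v : V, v ∈ e → v ∉ f)

open scoped Classical in
/-- The vertices not covered by `N`. -/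
noncomputable def free {V : Type*} [Fintype V] (N : Finset (Sym2 V)) : Finset V :=
  univ.filter fun v => ∀ e ∈ N, v ∉ e

open scoped Classical in
/-- The uncovered neighbours of `v`. -/
noncomputable def nb {V : Type*} [Fintype V] (G : SimpleGraph V) (N : Finset (Sym2 V)) (v : V) :
    Finset V :=
  (free N).filter fun u => G.Adj v u

/-- The number of uncovered neighbours of `v`. -/
noncomputable def D {V : Type*} [Fintype V] (G : SimpleGraph V) (N : Finset (Sym2 V)) (v : V) : ℕ :=
  (nb G N v).card

section

variable {V : Type*} [Fintype V] {G : SimpleGraph V}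

theorem mem_mats {k : ℕ} {s : Finset (Sym2 V)} : s ∈ mats G k ↔
    (↑s : Set (Sym2 V)) ⊆ G.edgeSet ∧ s.card = k ∧
    (↑s : Set (Sym2 V)).Pairwise (fun e f => ∀ v : V, v ∈ e → v ∉ f) := by
  simp [mats]

theorem mem_free {N : Finset (Sym2 V)} {v : V} : v ∈ free N ↔ ∀ e ∈ N, v ∉ e := by
  simp [free]

theorem mem_nb {N : Finset (Sym2 V)} {u v : V} : u ∈ nb G N v ↔ u ∈ free N ∧ G.Adj v u := by
  simp [nb]

theorem edge_mem {k : ℕ} {M : Finset (Sym2 V)} (hM : M ∈ mats G k) {a b : V} (h : s(a, b) ∈ M) :
    G.Adj a b := by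
  have := (mem_mats.1 hM).1 h
  simpa using this

/-- Two edges of a matching through the same vertex are equal. -/
theorem edge_unique {k : ℕ} {M : Finset (Sym2 V)} (hM : M ∈ mats G k) {e f : Sym2 V}
    (he : e ∈ M) (hf : f ∈ M) {v : V} (hve : v ∈ e) (hvf : v ∈ f) : e = f := by
  by_contra hne
  exact (mem_mats.1 hM).2.2 he hf hne v hve hvf

theorem partner_unique {k : ℕ} {M : Finset (Sym2 V)} (hM : M ∈ mats G k) {a b c : V}
    (h1 : s(a, b) ∈ M) (h2 : s(a, c) ∈ M) : b = c := by
  have := edge_unique hM h1 h2 (v := a) (by simp) (by simp)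
  have h : b = c ∨ a = c ∧ b = a := by simpa using this
  rcases h with h | ⟨h, h'⟩
  · exact h
  · rw [h', h]

open scoped Classical in
theorem erase_mem_mats {k : ℕ} {M : Finset (Sym2 V)} (hM : M ∈ mats G (k + 1)) {e : Sym2 V}
    (he : e ∈ M) : M.erase e ∈ mats G k := by
  obtain ⟨h1, h2, h3⟩ := mem_mats.1 hM
  refine mem_mats.2 ⟨?_, ?_, ?_⟩
  · intro f hf
    exact h1 (Finset.mem_of_mem_erase hf)
  · rw [Finset.card_erase_of_mem he, h2, Nat.add_sub_cancel]
  · exact h3.mono (by
      intro f hf
      exact Finset.mem_of_mem_erase hf)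

open scoped Classical in
theorem insert_mem_mats {k : ℕ} {N : Finset (Sym2 V)} (hN : N ∈ mats G k) {a b : V}
    (ha : a ∈ free N) (hb : b ∈ free N) (hab : G.Adj a b) : insert s(a, b) N ∈ mats G (k + 1) := by
  obtain ⟨h1, h2, h3⟩ := mem_mats.1 hN
  have hnot : s(a, b) ∉ N := fun h => mem_free.1 ha _ h (by simp)
  refine mem_mats.2 ⟨?_, ?_, ?_⟩
  · intro f hf
    rw [Finset.coe_insert, Set.mem_insert_iff] at hf
    rcases hf with rfl | hf
    · simpa using hab
    · exact h1 hf
  · rw [Finset.card_insert_of_notMem hnot, h2]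
  · rw [Finset.coe_insert]
    intro e he f hf hne v hve hvf
    rw [Set.mem_insert_iff] at he hf
    rcases he with rfl | he
    · rcases hf with rfl | hf
      · exact hne rfl
      · rw [Sym2.mem_iff] at hve
        rcases hve with rfl | rfl
        · exact mem_free.1 ha _ hf hvf
        · exact mem_free.1 hb _ hf hvf
    · rcases hf with rfl | hf
      · rw [Sym2.mem_iff] at hvf
        rcases hvf with rfl | rfl
        · exact mem_free.1 ha _ he hve
        · exact mem_free.1 hb _ he hve
      · exact h3 he hf hne v hve hvf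

open scoped Classical in
theorem mem_free_insert {N : Finset (Sym2 V)} {a b v : V} :
    v ∈ free (insert s(a, b) N) ↔ v ∈ free N ∧ v ≠ a ∧ v ≠ b := by
  simp only [mem_free, Finset.mem_insert, forall_eq_or_imp, Sym2.mem_iff, not_or]
  tauto

open scoped Classical in
theorem mem_free_erase {k : ℕ} {M : Finset (Sym2 V)} (hM : M ∈ mats G k) {a b : V}
    (h : s(a, b) ∈ M) : a ∈ free (M.erase s(a, b)) ∧ b ∈ free (M.erase s(a, b)) := by
  refine ⟨mem_free.2 ?_, mem_free.2 ?_⟩
  · intro e he hae
    rw [Finset.mem_erase] at he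
    exact he.1 (edge_unique hM he.2 h hae (by simp))
  · intro e he hae
    rw [Finset.mem_erase] at he
    exact he.1 (edge_unique hM he.2 h hae (by simp))

open scoped Classical in
/-- The insertion lemma. -/
theorem sum_insert (i : ℕ) (F : Finset (Sym2 V) → V × V → ℝ) :
    ∑ M ∈ mats G (i + 1), ∑ p ∈ univ.filter (fun p : V × V => s(p.1, p.2) ∈ M), F M p =
      ∑ N ∈ mats G i, ∑ p ∈ univ.filter
        (fun p : V × V => p.1 ∈ free N ∧ p.2 ∈ free N ∧ G.Adj p.1 p.2),
        F (insert s(p.1, p.2) N) p := by
  rw [Finset.sum_sigma', Finset.sum_sigma']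
  refine Finset.sum_bij' (fun x _ => ⟨x.1.erase s(x.2.1, x.2.2), x.2⟩)
    (fun x _ => ⟨insert s(x.2.1, x.2.2) x.1, x.2⟩) ?_ ?_ ?_ ?_ ?_
  · rintro ⟨M, a, b⟩ h
    simp only [Finset.mem_sigma, Finset.mem_filter, Finset.mem_univ, true_and] at h ⊢
    exact ⟨erase_mem_mats h.1 h.2, (mem_free_erase h.1 h.2).1, (mem_free_erase h.1 h.2).2,
      edge_mem h.1 h.2⟩
  · rintro ⟨N, a, b⟩ h
    simp only [Finset.mem_sigma, Finset.mem_filter, Finset.mem_univ, true_and] at h ⊢
    exact ⟨insert_mem_mats h.1 h.2.1 h.2.2.1 h.2.2.2, Finset.mem_insert_self _ _⟩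
  · rintro ⟨M, a, b⟩ h
    simp only [Finset.mem_sigma, Finset.mem_filter, Finset.mem_univ, true_and] at h
    simp only [Finset.insert_erase h.2]
  · rintro ⟨N, a, b⟩ h
    simp only [Finset.mem_sigma, Finset.mem_filter, Finset.mem_univ, true_and] at h
    have hnot : s(a, b) ∉ N := fun h' => mem_free.1 h.2.1 _ h' (by simp)
    simp only [Finset.erase_insert hnot]
  · rintro ⟨M, a, b⟩ h
    simp only [Finset.mem_sigma, Finset.mem_filter, Finset.mem_univ, true_and] at h
    simp only [Finset.insert_erase h.2]

open scoped Classical in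
/-- Sums over the oriented edges of a matching are sums over the covered vertices. -/
theorem sum_darts {k : ℕ} {M : Finset (Sym2 V)} (hM : M ∈ mats G k) (f : V → ℝ) :
    ∑ p ∈ univ.filter (fun p : V × V => s(p.1, p.2) ∈ M), f p.1 =
      ∑ a ∈ univ.filter (fun a => a ∉ free M), f a := by
  refine Finset.sum_bij (fun p _ => p.1) ?_ ?_ ?_ ?_
  · rintro ⟨a, b⟩ h
    simp only [Finset.mem_filter, Finset.mem_univ, true_and] at h ⊢
    intro ha
    exact mem_free.1 ha _ h (by simp)
  · rintro ⟨a, b⟩ h ⟨a', b'⟩ h' heq
    simp only [Finset.mem_filter, Finset.mem_univ, true_and] at h h' heq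
    subst heq
    rw [partner_unique hM h h']
  · intro a ha
    simp only [Finset.mem_filter, Finset.mem_univ, true_and, mem_free, not_forall, not_not] at ha
    obtain ⟨e, he, hae⟩ := ha
    refine ⟨(a, Sym2.Mem.other hae), ?_, rfl⟩
    simp only [Finset.mem_filter, Finset.mem_univ, true_and]
    rw [Sym2.other_spec hae]
    exact he
  · rintro ⟨a, b⟩ _
    rfl

/-- The number of uncovered vertices. -/
theorem card_free {k : ℕ} {M : Finset (Sym2 V)} (hM : M ∈ mats G k) :
    (free M).card + 2 * k = Fintype.card V := by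
  classical
  induction k generalizing M with
  | zero =>
    have : M = ∅ := Finset.card_eq_zero.1 (mem_mats.1 hM).2.1
    subst this
    have : free (∅ : Finset (Sym2 V)) = univ := by
      ext v; simp [mem_free]
    rw [this]; simp
  | succ k ih =>
    have hne : M.Nonempty := by
      rw [← Finset.card_pos, (mem_mats.1 hM).2.1]; omega
    obtain ⟨e, he⟩ := hne
    induction e using Sym2.ind with
    | _ a b =>
    have h1 := ih (erase_mem_mats hM he)
    have hfa := mem_free_erase hM he
    have hab : a ≠ b := (edge_mem hM he).ne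
    have h2 : free M = ((free (M.erase s(a, b))).erase a).erase b := by
      ext v
      have := mem_free_insert (N := M.erase s(a, b)) (a := a) (b := b) (v := v)
      rw [Finset.insert_erase he] at this
      rw [this]
      simp only [Finset.mem_erase]
      tauto
    rw [h2, Finset.card_erase_of_mem, Finset.card_erase_of_mem hfa.1]
    · have hpos : 2 ≤ (free (M.erase s(a, b))).card := by
        have : ({a, b} : Finset V) ⊆ free (M.erase s(a, b)) := by
          intro x hx
          simp only [Finset.mem_insert, Finset.mem_singleton] at hx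
          rcases hx with rfl | rfl
          · exact hfa.1
          · exact hfa.2
        have := Finset.card_le_card this
        rwa [Finset.card_pair hab] at this
      omega
    · exact Finset.mem_erase.2 ⟨hab.symm, hfa.2⟩

/-- The number of covered vertices. -/
theorem card_covered {k : ℕ} {M : Finset (Sym2 V)} (hM : M ∈ mats G k) :
    (by classical exact ((univ.filter (fun a => a ∉ free M)).card : ℕ)) = 2 * k := by
  classical
  have h1 := card_free hM
  have h2 : (univ.filter (fun a => a ∉ free M)).card + (free M).card = Fintype.card V := by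
    have := Finset.card_filter_add_card_filter_not (s := (univ : Finset V)) (fun a => a ∉ free M)
    simp only [not_not, Finset.filter_mem_eq_inter, Finset.univ_inter, Finset.card_univ] at this
    exact this
  omega

end

end Pool.Agent.Lib.MP_eeed5c_co
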