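import Pool.Agent.Lib.MP_eeed5c_co.Growth

/-!
The recursion satisfied by the functions.
-/

namespace Pool.Agent.Lib.MP_eeed5c_co

open Finset

/-- Products of falling factorials and factorials. -/
noncomputable def cc (r d l : ℕ) : ℝ := (d.descFactorial l : ℝ) * ((r - l).factorial : ℝ)

/-- The un-normalised functions. -/
noncomputable def HH (r t d : ℕ) : ℝ := ∑ l ∈ range r,
  (d.descFactorial l : ℝ) * ((r - 1 - l).factorial : ℝ) * nn r t l

theorem GG_eq (r t d : ℕ) : GG r t d = HH r t d / ((r - 1).factorial : ℝ) := by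
  unfold GG HH
  rw [Finset.sum_div]
  refine Finset.sum_congr rfl fun l _ => ?_
  ring

theorem fact_pred {r l : ℕ} (h : l < r) :
    ((r - l).factorial : ℝ) = ((r : ℝ) - l) * ((r - 1 - l).factorial : ℝ) := by
  have e : r - l = (r - 1 - l) + 1 := by omega
  rw [e, Nat.factorial_succ, Nat.cast_mul]
  have : ((r - 1 - l + 1 : ℕ) : ℝ) = (r : ℝ) - l := by
    rw [← e, Nat.cast_sub h.le]
  rw [this]

/-- The left side. -/
theorem left_side {R t d : ℕ} : (((R + 1 : ℕ) : ℝ) - d) * HH (R + 1) (t + 1) d =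
    cc (R + 1) d 0 * nn (R + 1) (t + 1) 0 -
      ∑ l ∈ range R, cc (R + 1) d (l + 2) *
        (((l : ℝ) + 1) * nn (R + 1) t (l + 1) + ((R : ℝ) - l) * nn (R + 1) t l) := by
  have hr : nn (R + 1) (t + 1) (R + 1) = 0 := nn_ge (by omega) (le_refl _)
  have h1 : ∀ l ∈ range (R + 1), (((R + 1 : ℕ) : ℝ) - d) *
      ((d.descFactorial l : ℝ) * ((R + 1 - 1 - l).factorial : ℝ) * nn (R + 1) (t + 1) l) =
      (cc (R + 1) d l * nn (R + 1) (t + 1) l -
        cc (R + 1) d (l + 1) * nn (R + 1) (t + 1) (l + 1)) -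
      cc (R + 1) d (l + 1) * (nn (R + 1) (t + 1) l - nn (R + 1) (t + 1) (l + 1)) := by
    intro l hl
    unfold cc
    rw [df_succ, fact_pred (Finset.mem_range.1 hl)]
    have e : R + 1 - (l + 1) = R + 1 - 1 - l := by omega
    rw [e]
    ring
  unfold HH
  rw [Finset.mul_sum, Finset.sum_congr rfl h1, Finset.sum_sub_distrib, Finset.sum_range_sub', hr,
    mul_zero, sub_zero, Finset.sum_range_succ', nn_zero_one, sub_self, mul_zero, add_zero]
  congr 1
  refine Finset.sum_congr rfl fun l hl => ?_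
  rw [nn_diff (show l + 1 ≤ R + 1 by have := Finset.mem_range.1 hl; omega)]
  push_cast
  have e1 : nn (R + 1) (t + 1) (l + 1 + 1) = nn (R + 1) (t + 1) (l + 2) := rfl
  have e2 : cc (R + 1) d (l + 1 + 1) = cc (R + 1) d (l + 2) := rfl
  rw [e1, e2]
  ring

/-- The right side. -/
theorem right_side {R t d : ℕ} (hd : d < R + 1) :
    (d : ℝ) * ((d : ℝ) - 1) * HH (R + 1) t (d - 1) =
      ∑ l ∈ range R, cc (R + 1) d (l + 2) *
        (((l : ℝ) + 1) * nn (R + 1) t (l + 1) + ((R : ℝ) - l) * nn (R + 1) t l) := by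
  have h1 : (d : ℝ) * ((d : ℝ) - 1) * HH (R + 1) t (d - 1) =
      ∑ l ∈ range (R + 1), ((l : ℝ) * cc (R + 1) d (l + 1) * nn (R + 1) t l +
        (d.descFactorial (l + 2) : ℝ) * ((R + 1 - 1 - l).factorial : ℝ) * nn (R + 1) t l) := by
    unfold HH
    rw [Finset.mul_sum]
    refine Finset.sum_congr rfl fun l hl => ?_
    unfold cc
    have e : R + 1 - (l + 1) = R + 1 - 1 - l := by omega
    rw [e]
    rcases Nat.eq_zero_or_pos d with rfl | hd0
    · have e1 : (0 : ℕ).descFactorial (l + 1) = 0 := Nat.descFactorial_of_lt (by omega)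
      have e2 : (0 : ℕ).descFactorial (l + 2) = 0 := Nat.descFactorial_of_lt (by omega)
      rw [e1, e2]
      simp
    · obtain ⟨c, rfl⟩ : ∃ c, d = c + 1 := ⟨d - 1, by omega⟩
      have e2 : (((c + 1).descFactorial (l + 2) : ℕ) : ℝ) =
          ((c : ℝ) + 1) * (((c : ℝ) - l) * (c.descFactorial l : ℕ)) := by
        rw [← df_succ, ← df_succ_succ]
      rw [df_succ_succ, e2, Nat.add_sub_cancel]
      push_cast
      ring
  have h2 : ∀ l ∈ range (R + 1),
      (d.descFactorial (l + 2) : ℝ) * ((R + 1 - 1 - l).factorial : ℝ) * nn (R + 1) t l =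
      ((R : ℝ) - l) * cc (R + 1) d (l + 2) * nn (R + 1) t l := by
    intro l hl
    have hl' := Finset.mem_range.1 hl
    rcases Nat.lt_or_ge l R with h | h
    · unfold cc
      have e := fact_pred (r := R) (l := l) h
      have e1 : R + 1 - (l + 2) = R - 1 - l := by omega
      have e2 : R + 1 - 1 - l = R - l := by omega
      rw [e1, e2, e]
      ring
    · have e : l = R := by omega
      subst e
      rw [Nat.descFactorial_of_lt (show d < l + 2 by omega)]
      push_cast
      ring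
  rw [h1, Finset.sum_add_distrib, Finset.sum_congr rfl h2, Finset.sum_range_succ',
    Finset.sum_range_succ (fun l => ((R : ℝ) - l) * cc (R + 1) d (l + 2) * nn (R + 1) t l)]
  push_cast
  rw [zero_mul, zero_mul, add_zero, sub_self, zero_mul, zero_mul, add_zero,
    ← Finset.sum_add_distrib]
  refine Finset.sum_congr rfl fun l _ => ?_
  have e2 : cc (R + 1) d (l + 1 + 1) = cc (R + 1) d (l + 2) := rfl
  rw [e2]
  ring

theorem HH_top {R t : ℕ} : HH (R + 1) t R = ((R).factorial : ℝ) * ∑ m ∈ range (R + 1),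
    nn (R + 1) t m := by
  unfold HH
  rw [Finset.mul_sum]
  refine Finset.sum_congr rfl fun l hl => ?_
  have hl' : l ≤ R := by have := Finset.mem_range.1 hl; omega
  congr 1
  have h := Nat.factorial_mul_descFactorial hl'
  have e : R + 1 - 1 - l = R - l := by omega
  rw [e, mul_comm]
  exact_mod_cast h

/-- The recursion. -/
theorem GG_rec {R t d : ℕ} (hd : d < R + 1) :
    ((R : ℝ) + 1 - d) * GG (R + 1) (t + 1) d =
      ((R : ℝ) + 1) * R * GG (R + 1) t R - (d : ℝ) * ((d : ℝ) - 1) * GG (R + 1) t (d - 1) := by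
  have hf : ((R).factorial : ℝ) ≠ 0 := by exact_mod_cast (Nat.factorial_pos _).ne'
  have h1 := left_side (R := R) (t := t) (d := d)
  have h2 := right_side (t := t) hd
  rw [← h2] at h1
  rw [GG_eq, GG_eq, GG_eq, Nat.add_sub_cancel, HH_top]
  have h3 : cc (R + 1) d 0 * nn (R + 1) (t + 1) 0 =
      ((R : ℝ) + 1) * R * (((R).factorial : ℝ) * ∑ m ∈ range (R + 1), nn (R + 1) t m) := by
    rw [nn_zero_sum]
    unfold cc
    rw [Nat.descFactorial_zero, Nat.sub_zero, Nat.factorial_succ]
    push_cast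
    ring
  rw [h3] at h1
  push_cast at h1
  field_simp
  linarith

end Pool.Agent.Lib.MP_eeed5c_co
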