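import Pool.Agent.Lib.MP_eeed5c_co.OneBlock
import Pool.Agent.Lib.MP_eeed5c_co.Ident

/-!
The chain of inequalities for small matchings.
-/

namespace Pool.Agent.Lib.MP_eeed5c_co

open Finset

/-- Alternating sums of a nonincreasing nonnegative sequence. -/
theorem alt_sum (m : ℕ) : ∀ f : ℕ → ℝ, (∀ j < m, 0 ≤ f j) → (∀ j, j + 1 < m → f (j + 1) ≤ f j) →
    0 ≤ ∑ j ∈ range m, (-1) ^ j * f j ∧ (1 ≤ m → ∑ j ∈ range m, (-1) ^ j * f j ≤ f 0) := by
  induction m with
  | zero => intro f _ _; simp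
  | succ m ih =>
    intro f h0 h1
    have e : ∑ j ∈ range (m + 1), (-1) ^ j * f j =
        f 0 - ∑ j ∈ range m, (-1) ^ j * f (j + 1) := by
      rw [Finset.sum_range_succ']
      have : ∀ j ∈ range m, (-1 : ℝ) ^ (j + 1) * f (j + 1) = - ((-1) ^ j * f (j + 1)) := by
        intro j _; rw [pow_succ]; ring
      rw [Finset.sum_congr rfl this, Finset.sum_neg_distrib]
      simp only [pow_zero, one_mul]
      ring
    obtain ⟨h2, h3⟩ := ih (fun j => f (j + 1)) (fun j hj => h0 _ (by omega))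
      (fun j hj => h1 _ (by omega))
    rw [e]
    refine ⟨?_, fun _ => by linarith⟩
    rcases Nat.eq_zero_or_pos m with rfl | hm
    · simp only [Finset.range_zero, Finset.sum_empty, sub_zero]
      exact h0 0 (by omega)
    · have h4 := h3 hm
      have h5 := h1 0 (by omega)
      simp only [zero_add] at h4 h5
      linarith

/-- The functions of the dual solution, for degree `R + 1`, half the number of vertices `n` and
matchings with `κ + 1` edges. -/
noncomputable def vv (R : ℕ) (n : ℝ) (κ : ℕ) : ℕ → ℕ → ℝ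
  | 0, _ => 1 / (2 * ((κ : ℝ) + 1))
  | (t + 1), d => ((R : ℝ) + 1) * (n - ((κ : ℝ) - t)) / ((κ : ℝ) - t) * vv R n κ t 0 -
      (((R : ℝ) + 1) * R * vv R n κ t R - (d : ℝ) * ((d : ℝ) - 1) * vv R n κ t (d - 1)) /
        ((R : ℝ) + 1 - d)

/-- The constants of the dual solution. -/
noncomputable def CC (R : ℕ) (n : ℝ) (κ : ℕ) : ℕ → ℝ
  | 0 => 1 / (2 * ((κ : ℝ) + 1))
  | (t + 1) => ((R : ℝ) + 1) * (n - ((κ : ℝ) - t)) / ((κ : ℝ) - t) * vv R n κ t 0

theorem vv_sum (R : ℕ) (n : ℝ) (κ t : ℕ) : ∀ d, d < R + 1 → vv R n κ t d =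
    ∑ j ∈ range (t + 1), (-1) ^ j * (CC R n κ (t - j) * GG (R + 1) j d) := by
  induction t with
  | zero =>
    intro d _
    rw [Finset.sum_range_one, GG_zero (by omega)]
    simp [vv, CC]
  | succ t ih =>
    intro d hd
    rw [vv, ih R (by omega), ih (d - 1) (by omega)]
    conv_rhs => rw [Finset.sum_range_succ', GG_zero (by omega)]
    have hpos : (0 : ℝ) < (R : ℝ) + 1 - d := by
      have : (d : ℝ) + 1 ≤ (R : ℝ) + 1 := by exact_mod_cast hd
      linarith
    have e : (((R : ℝ) + 1) * R * ∑ j ∈ range (t + 1), (-1) ^ j * (CC R n κ (t - j) *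
        GG (R + 1) j R) - (d : ℝ) * ((d : ℝ) - 1) * ∑ j ∈ range (t + 1), (-1) ^ j *
        (CC R n κ (t - j) * GG (R + 1) j (d - 1))) / ((R : ℝ) + 1 - d) =
        ∑ j ∈ range (t + 1), (-1) ^ j * (CC R n κ (t - j) * GG (R + 1) (j + 1) d) := by
      rw [div_eq_iff hpos.ne', Finset.mul_sum, Finset.mul_sum, ← Finset.sum_sub_distrib,
        Finset.sum_mul]
      refine Finset.sum_congr rfl fun j _ => ?_
      have := GG_rec (t := j) hd
      calc _ = (-1) ^ j * CC R n κ (t - j) * (((R : ℝ) + 1) * R * GG (R + 1) j R -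
            (d : ℝ) * ((d : ℝ) - 1) * GG (R + 1) j (d - 1)) := by ring
        _ = _ := by rw [← this]; ring
    rw [e]
    simp only [pow_zero, one_mul, Nat.sub_zero, mul_one]
    have e2 : ∑ j ∈ range (t + 1), (-1 : ℝ) ^ (j + 1) *
        (CC R n κ (t + 1 - (j + 1)) * GG (R + 1) (j + 1) d) =
        - ∑ j ∈ range (t + 1), (-1) ^ j * (CC R n κ (t - j) * GG (R + 1) (j + 1) d) := by
      rw [← Finset.sum_neg_distrib]
      refine Finset.sum_congr rfl fun j _ => ?_
      have : t + 1 - (j + 1) = t - j := by omega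
      rw [this, pow_succ]
      ring
    rw [e2, CC]
    ring

/-- Monotonicity from the growth of the constants. -/
theorem vv_anti {R : ℕ} {n : ℝ} {κ t : ℕ} (hpos : ∀ j ≤ t, 0 ≤ CC R n κ j)
    (hgr : ∀ j < t, 4 * (R : ℝ) * CC R n κ j ≤ CC R n κ (j + 1)) :
    ∀ a b, a ≤ b → b < R + 1 → vv R n κ t b ≤ vv R n κ t a := by
  have step : ∀ d, d + 1 < R + 1 → vv R n κ t (d + 1) ≤ vv R n κ t d := by
    intro d hd
    have h1 : vv R n κ t d - vv R n κ t (d + 1) = ∑ j ∈ range t, (-1) ^ j *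
        (CC R n κ (t - (j + 1)) * (GG (R + 1) (j + 1) (d + 1) - GG (R + 1) (j + 1) d)) := by
      rw [vv_sum R n κ t d (by omega), vv_sum R n κ t (d + 1) hd, ← Finset.sum_sub_distrib,
        Finset.sum_range_succ', GG_zero (by omega), GG_zero (by omega), sub_self, add_zero]
      refine Finset.sum_congr rfl fun j _ => ?_
      rw [pow_succ]
      ring
    have h2 := (alt_sum t (fun j => CC R n κ (t - (j + 1)) *
      (GG (R + 1) (j + 1) (d + 1) - GG (R + 1) (j + 1) d)) ?_ ?_).1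
    · rw [← h1] at h2
      linarith
    · intro j hj
      exact mul_nonneg (hpos _ (by omega)) GG_mono
    · intro j hj
      have h3 := GG_growth (R := R) (t := j) (d := d) (by omega)
      have h4 := hgr (t - (j + 1 + 1)) (by omega)
      have e : t - (j + 1 + 1) + 1 = t - (j + 1) := by omega
      rw [e] at h4
      have h5 := hpos (t - (j + 1 + 1)) (by omega)
      have h6 : 0 ≤ GG (R + 1) (j + 1) (d + 1) - GG (R + 1) (j + 1) d := GG_mono
      have e3 : j + 1 + 1 = j + 2 := rfl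
      calc CC R n κ (t - (j + 1 + 1)) *
            (GG (R + 1) (j + 1 + 1) (d + 1) - GG (R + 1) (j + 1 + 1) d)
          ≤ CC R n κ (t - (j + 1 + 1)) *
            (4 * (R : ℝ) * (GG (R + 1) (j + 1) (d + 1) - GG (R + 1) (j + 1) d)) :=
            mul_le_mul_of_nonneg_left h3 h5
        _ = 4 * (R : ℝ) * CC R n κ (t - (j + 1 + 1)) *
            (GG (R + 1) (j + 1) (d + 1) - GG (R + 1) (j + 1) d) := by ring
        _ ≤ _ := mul_le_mul_of_nonneg_right h4 h6
  intro a b hab
  induction b, hab using Nat.le_induction with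
  | base => intro _; exact le_refl _
  | succ b hab ih =>
    intro hb
    exact (step b hb).trans (ih (by omega))

theorem vv_succ_zero (R : ℕ) (n : ℝ) (κ t : ℕ) :
    vv R n κ (t + 1) 0 = CC R n κ (t + 1) - R * vv R n κ t R := by
  rw [vv, CC]
  have : ((R : ℝ) + 1) ≠ 0 := by positivity
  push_cast
  field_simp
  ring

/-- The main induction. -/
theorem main_ind {R : ℕ} {n : ℝ} {κ : ℕ} (hn : (6 * (R : ℝ) + 1) * κ ≤ (R + 1) * n) (t : ℕ) :
    t < κ → 0 ≤ CC R n κ t ∧ (∀ a b, a ≤ b → b < R + 1 → vv R n κ t b ≤ vv R n κ t a) ∧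
    4 / 5 * CC R n κ t ≤ vv R n κ t 0 ∧ 4 * (R : ℝ) * CC R n κ t ≤ CC R n κ (t + 1) := by
  induction t using Nat.strong_induction_on with
  | _ t ih =>
    intro ht
    have hR : (0 : ℝ) ≤ R := Nat.cast_nonneg R
    -- the ratio
    have hratio : ∀ s < κ, 5 * (R : ℝ) ≤
        ((R : ℝ) + 1) * (n - ((κ : ℝ) - s)) / ((κ : ℝ) - s) := by
      intro s hs
      have h1 : (s : ℝ) + 1 ≤ κ := by exact_mod_cast hs
      have h0 : (0 : ℝ) ≤ s := Nat.cast_nonneg s
      rw [le_div_iff₀ (by linarith)]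
      nlinarith [mul_nonneg hR h0]
    have hpos : ∀ j ≤ t, 0 ≤ CC R n κ j := by
      intro j hj
      rcases Nat.eq_zero_or_pos j with rfl | hj0
      · rw [CC]; positivity
      · obtain ⟨s, rfl⟩ : ∃ s, j = s + 1 := ⟨j - 1, by omega⟩
        have h1 := ih s (by omega) (by omega)
        have h2 : 0 ≤ 4 * (R : ℝ) * CC R n κ s := by
          have := h1.1
          positivity
        linarith [h1.2.2.2]
    have hgr : ∀ j < t, 4 * (R : ℝ) * CC R n κ j ≤ CC R n κ (j + 1) :=
      fun j hj => (ih j hj (by omega)).2.2.2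
    have hanti := vv_anti hpos hgr
    have hC := hpos t (le_refl _)
    have hlow : 4 / 5 * CC R n κ t ≤ vv R n κ t 0 := by
      rcases Nat.eq_zero_or_pos t with rfl | ht0
      · have : vv R n κ 0 0 = CC R n κ 0 := by rw [vv, CC]
        rw [this]
        linarith
      · obtain ⟨s, rfl⟩ : ∃ s, t = s + 1 := ⟨t - 1, by omega⟩
        obtain ⟨i1, i2, i3, i4⟩ := ih s (by omega) (by omega)
        rw [vv_succ_zero]
        have h1 := i2 0 R (Nat.zero_le _) (by omega)
        have h2 : 5 * (R : ℝ) * vv R n κ s 0 ≤ CC R n κ (s + 1) := by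
          rw [CC]
          exact mul_le_mul_of_nonneg_right (hratio s (by omega)) (by linarith)
        have h3 := mul_le_mul_of_nonneg_left h1 hR
        linarith
    refine ⟨hC, hanti, hlow, ?_⟩
    rw [CC]
    have h1 := hratio t ht
    have h2 : 0 ≤ vv R n κ t 0 := by linarith
    have h3 := mul_le_mul_of_nonneg_right h1 h2
    have h5 := mul_le_mul_of_nonneg_left hlow hR
    linarith

/-- The test functions. -/
noncomputable def hf (R : ℕ) (n : ℝ) (κ t d : ℕ) : ℝ :=
  ((R : ℝ) + 1) * vv R n κ t 0 - ((R : ℝ) + 1 - d) * vv R n κ t d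

theorem hf_succ (R : ℕ) (n : ℝ) (κ t d : ℕ) (hd : d ≤ R + 1) :
    hf R n κ (t + 1) d = CC R n κ (t + 1) * d - (d : ℝ) * ((d : ℝ) - 1) * vv R n κ t (d - 1) := by
  unfold hf
  rw [vv_succ_zero]
  rcases Nat.lt_or_ge d (R + 1) with h | h
  · have hpos : (0 : ℝ) < (R : ℝ) + 1 - d := by
      have : (d : ℝ) + 1 ≤ (R : ℝ) + 1 := by exact_mod_cast h
      linarith
    have e : ((R : ℝ) + 1 - d) * vv R n κ (t + 1) d = ((R : ℝ) + 1 - d) * CC R n κ (t + 1) -
        (((R : ℝ) + 1) * R * vv R n κ t R - (d : ℝ) * ((d : ℝ) - 1) * vv R n κ t (d - 1)) := by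
      rw [vv, CC]
      field_simp
    rw [e]
    ring
  · have e : d = R + 1 := by omega
    subst e
    rw [Nat.add_sub_cancel]
    push_cast
    ring

section

variable {V : Type*} [Fintype V] {G : SimpleGraph V}

theorem D_le {r : ℕ} (hreg : ∀ v : V,
      (by classical exact (univ.filter fun u => G.Adj v u).card) = r)
    (N : Finset (Sym2 V)) (v : V) : D G N v ≤ r := by
  classical
  rw [← hreg v]
  unfold D nb
  exact Finset.card_le_card (Finset.filter_subset_filter _ (Finset.subset_univ _))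

theorem phi_start (R : ℕ) (n : ℝ) (κ : ℕ) :
    ((mats G (κ + 1)).card : ℝ) = Phi G κ (hf R n κ 0) := by
  have h1 := Phi_D (G := G) κ
  have h2 : (hf R n κ 0) = fun d : ℕ => (1 / (2 * ((κ : ℝ) + 1))) * (d : ℝ) := by
    funext d
    unfold hf
    rw [vv, vv]
    ring
  rw [h2, Phi_smul, h1]
  field_simp

theorem phi_left (R : ℕ) (n : ℝ) (κ t i : ℕ) (hV : (Fintype.card V : ℝ) = 2 * n) :
    Phi G (i + 1) (hf R n κ t) =
      ((R : ℝ) + 1) * vv R n κ t 0 * ((2 * n - 2 * (i + 1)) * (mats G (i + 1)).card) +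
      Phi G (i + 1) (fun d => (((R + 1 : ℕ) : ℝ) - d) * (- vv R n κ t d)) := by
  have h1 : hf R n κ t = fun d : ℕ => ((R : ℝ) + 1) * vv R n κ t 0 +
      (((R + 1 : ℕ) : ℝ) - d) * (- vv R n κ t d) := by
    funext d
    unfold hf
    push_cast
    ring
  rw [h1, Phi_add (G := G) (i + 1) (fun _ => ((R : ℝ) + 1) * vv R n κ t 0)
    (fun d => (((R + 1 : ℕ) : ℝ) - d) * (- vv R n κ t d)), Phi_const, hV]
  push_cast
  ring

theorem phi_right {R : ℕ} (n : ℝ) (κ t i : ℕ) (hreg : ∀ v : V,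
      (by classical exact (univ.filter fun u => G.Adj v u).card) = R + 1) (hi : i + 1 + t = κ) :
    Phi G i (hf R n κ (t + 1)) =
      ((R : ℝ) + 1) * vv R n κ t 0 * ((2 * n - 2 * (i + 1)) * (mats G (i + 1)).card) +
      Phi G i (fun d => (d : ℝ) * (d - 1) * (- vv R n κ t (d - 1))) := by
  have h1 : Phi G i (hf R n κ (t + 1)) = Phi G i (fun d : ℕ => CC R n κ (t + 1) * (d : ℝ) +
      (d : ℝ) * (d - 1) * (- vv R n κ t (d - 1))) := by
    refine Phi_congr i (r := R + 1) (fun N _ v _ => D_le hreg N v) ?_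
    intro d hd
    rw [hf_succ R n κ t d hd]
    ring
  rw [h1, Phi_add (G := G) i (fun d => CC R n κ (t + 1) * (d : ℝ))
    (fun d => (d : ℝ) * (d - 1) * (- vv R n κ t (d - 1))), Phi_smul, Phi_D, CC]
  have hk : (κ : ℝ) - t = i + 1 := by
    have : ((i : ℝ) + 1 + t) = κ := by exact_mod_cast hi
    linarith
  rw [hk]
  have hi0 : (i : ℝ) + 1 ≠ 0 := by positivity
  field_simp

/-- The chain of inequalities. -/
theorem chain_le {R : ℕ} {n : ℝ} {κ : ℕ} (hn : (6 * (R : ℝ) + 1) * κ ≤ (R + 1) * n)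
    (hV : (Fintype.card V : ℝ) = 2 * n) (hreg : ∀ v : V,
      (by classical exact (univ.filter fun u => G.Adj v u).card) = R + 1) (t : ℕ) :
    ∀ i, i + t = κ → ((mats G (κ + 1)).card : ℝ) ≤ Phi G i (hf R n κ t) := by
  induction t with
  | zero =>
    intro i hi
    rw [add_zero] at hi
    subst hi
    exact (phi_start R n i).le
  | succ t ih =>
    intro i hi
    refine (ih (i + 1) (by omega)).trans ?_
    rw [phi_left R n κ t i hV, phi_right n κ t i hreg (by omega)]
    refine add_le_add_right ?_ _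
    refine step_le hreg i (fun d => - vv R n κ t d) ?_
    intro a b hab hb
    have := (main_ind (R := R) hn t (by omega)).2.1 a b hab hb
    linarith

/-- The chain of equalities. -/
theorem chain_eq {R : ℕ} {n : ℝ} {κ : ℕ}
    (hV : (Fintype.card V : ℝ) = 2 * n) (hreg : ∀ v : V,
      (by classical exact (univ.filter fun u => G.Adj v u).card) = R + 1)
    (htri : ∀ a b v : V, G.Adj a b → G.Adj a v → ¬ G.Adj v b)
    (hD : ∀ i, ∀ N ∈ mats G i, ∀ a ∈ free N, ∀ v ∈ nb G N a, D G N a = D G N v) (t : ℕ) :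
    ∀ i, i + t = κ → ((mats G (κ + 1)).card : ℝ) = Phi G i (hf R n κ t) := by
  induction t with
  | zero =>
    intro i hi
    rw [add_zero] at hi
    subst hi
    exact phi_start R n i
  | succ t ih =>
    intro i hi
    rw [ih (i + 1) (by omega), phi_left R n κ t i hV, phi_right n κ t i hreg (by omega)]
    congr 1
    exact step_eq hreg htri i (hD i) (fun d => - vv R n κ t d)

end

/-- Small matchings. -/
theorem small_matchings {V : Type*} [Fintype V] {G : SimpleGraph V} {q r k : ℕ}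
    (hV : Fintype.card V = 2 * (q * r)) (hreg : ∀ v : V,
      (by classical exact (univ.filter fun u => G.Adj v u).card) = r)
    (hk : (6 * r - 5) * (k - 1) ≤ q * r ^ 2) :
    (mats G k).card ≤ (mats (KK q r) k).card := by
  rcases Nat.eq_zero_or_pos k with rfl | hk1
  · rw [card_mats_zero, card_mats_zero]
  rcases Nat.eq_zero_or_pos r with rfl | hr
  · rw [card_mats_eq_zero (by rw [hV]; omega)]
    exact Nat.zero_le _
  · obtain ⟨R, rfl⟩ : ∃ R, r = R + 1 := ⟨r - 1, by omega⟩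
    obtain ⟨κ, rfl⟩ : ∃ κ, k = κ + 1 := ⟨k - 1, by omega⟩
    have e1 : 6 * (R + 1) - 5 = 6 * R + 1 := by omega
    rw [Nat.add_sub_cancel, e1] at hk
    have hn : (6 * (R : ℝ) + 1) * κ ≤ (R + 1) * ((q * (R + 1) : ℕ) : ℝ) := by
      have h1 : ((((6 * R + 1) * κ : ℕ)) : ℝ) ≤ ((q * (R + 1) ^ 2 : ℕ) : ℝ) := by
        exact_mod_cast hk
      push_cast at h1 ⊢
      nlinarith [h1]
    have hV1 : (Fintype.card V : ℝ) = 2 * ((q * (R + 1) : ℕ) : ℝ) := by
      rw [hV]; push_cast; ring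
    have hV2 : (Fintype.card (Fin q × Fin 2 × Fin (R + 1)) : ℝ) =
        2 * ((q * (R + 1) : ℕ) : ℝ) := by
      rw [KK_card]; push_cast; ring
    have h1 := chain_le hn hV1 hreg κ 0 (by omega)
    have h2 := chain_eq (κ := κ) hV2 (KK_deg q (R + 1)) (KK_tri q (R + 1))
      (fun i N hN a _ v hv => KK_D hN a v hv) κ 0 (by omega)
    rw [Phi_zero hreg, hV1, ← hV2, ← Phi_zero (KK_deg q (R + 1)), ← h2] at h1
    exact_mod_cast h1

end Pool.Agent.Lib.MP_eeed5c_co
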