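import Pool.Agent.Lib.MP_eeed5c_co.Variance

/-!
The disjoint union of `q` complete bipartite graphs `K_{r,r}`.
-/

namespace Pool.Agent.Lib.MP_eeed5c_co

open Finset

/-- The disjoint union of `q` copies of the complete bipartite graph. -/
def KK (q r : ℕ) : SimpleGraph (Fin q × Fin 2 × Fin r) :=
  SimpleGraph.fromRel (fun a b : Fin q × Fin 2 × Fin r => a.1 = b.1 ∧ a.2.1 ≠ b.2.1)

theorem KK_adj {q r : ℕ} {a b : Fin q × Fin 2 × Fin r} :
    (KK q r).Adj a b ↔ a.1 = b.1 ∧ a.2.1 ≠ b.2.1 := by
  unfold KK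
  rw [SimpleGraph.fromRel_adj]
  constructor
  · rintro ⟨_, h | h⟩
    · exact h
    · exact ⟨h.1.symm, h.2.symm⟩
  · intro h
    refine ⟨?_, Or.inl h⟩
    rintro rfl
    exact h.2 rfl

theorem fin_two_eq {a b c : Fin 2} (h1 : a ≠ b) (h2 : a ≠ c) : b = c := by
  omega

theorem card_cell (q r : ℕ) (c : Fin q) (s : Fin 2) :
    (univ.filter (fun u : Fin q × Fin 2 × Fin r => u.1 = c ∧ u.2.1 = s)).card = r := by
  have : (univ.filter (fun u : Fin q × Fin 2 × Fin r => u.1 = c ∧ u.2.1 = s)) =
      (univ : Finset (Fin r)).map ⟨fun x => (c, s, x), fun x y h => by simpa using h⟩ := by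
    ext ⟨x, y, z⟩
    simp only [Finset.mem_filter, Finset.mem_univ, true_and, Finset.mem_map,
      Function.Embedding.coeFn_mk, Prod.mk.injEq, exists_eq_right_right]
    constructor
    · rintro ⟨rfl, rfl⟩; exact ⟨rfl, rfl⟩
    · rintro ⟨rfl, rfl⟩; exact ⟨rfl, rfl⟩
  rw [this, Finset.card_map, Finset.card_univ, Fintype.card_fin]

theorem KK_deg (q r : ℕ) (v : Fin q × Fin 2 × Fin r) :
    (by classical exact (univ.filter fun u => (KK q r).Adj v u).card) = r := by
  classical
  have : (univ.filter fun u => (KK q r).Adj v u) =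
      univ.filter (fun u : Fin q × Fin 2 × Fin r => u.1 = v.1 ∧ u.2.1 = 1 - v.2.1) := by
    ext u
    simp only [Finset.mem_filter, Finset.mem_univ, true_and, KK_adj]
    constructor
    · rintro ⟨h1, h2⟩; exact ⟨h1.symm, by omega⟩
    · rintro ⟨h1, h2⟩; exact ⟨h1.symm, by omega⟩
  have h2 := card_cell q r v.1 (1 - v.2.1)
  rw [← this] at h2
  exact h2

theorem KK_tri (q r : ℕ) (a b v : Fin q × Fin 2 × Fin r) (h1 : (KK q r).Adj a b)
    (h2 : (KK q r).Adj a v) : ¬ (KK q r).Adj v b := by
  rw [KK_adj] at *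
  intro h3
  exact h3.2 (fin_two_eq h2.2 h1.2)

open scoped Classical in
/-- Two classes exchanged by the edges of a matching. -/
theorem balance_general {V : Type*} [Fintype V] {G : SimpleGraph V} {k : ℕ}
    {M : Finset (Sym2 V)} (hM : M ∈ mats G k) (A B : V → Prop)
    (hAB : ∀ a b, s(a, b) ∈ M → (A a ↔ B b))
    (hc : (univ.filter A).card = (univ.filter B).card) :
    ((free M).filter A).card = ((free M).filter B).card := by
  have h1 := sum_darts hM (fun u => if A u then (1 : ℝ) else 0)
  have h2 := sum_darts_snd hM (fun u => if B u then (1 : ℝ) else 0)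
  have h3 := h1.symm.trans ((Finset.sum_congr rfl (by
    rintro ⟨a, b⟩ hp
    simp only [Finset.mem_filter, Finset.mem_univ, true_and] at hp
    simp only [hAB a b hp])).trans h2)
  have e : ∀ A : V → Prop, ∑ a ∈ univ.filter (fun a => a ∉ free M),
      (if A a then (1 : ℝ) else 0) = (univ.filter A).card - ((free M).filter A).card := by
    intro A
    have h4 := Finset.sum_filter_add_sum_filter_not (univ : Finset V) (fun a => a ∉ free M)
      (fun a => if A a then (1 : ℝ) else 0)
    simp only [not_not, Finset.filter_mem_eq_inter, Finset.univ_inter] at h4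
    have h5 : ∑ x : V, (if A x then (1 : ℝ) else 0) = (univ.filter A).card := by
      rw [Finset.card_filter]
      push_cast
      rfl
    have h6 : ∑ x ∈ free M, (if A x then (1 : ℝ) else 0) = ((free M).filter A).card := by
      rw [Finset.card_filter]
      push_cast
      rfl
    rw [h5, h6] at h4
    linarith
  rw [e, e, hc] at h3
  have : (((free M).filter A).card : ℝ) = ((free M).filter B).card := by linarith
  exact_mod_cast this

/-- The two sides of a component have the same number of uncovered vertices. -/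
theorem KK_balance {q r i : ℕ} {N : Finset (Sym2 (Fin q × Fin 2 × Fin r))}
    (hN : N ∈ mats (KK q r) i) (c : Fin q) {s s' : Fin 2} (hs : s ≠ s') :
    ((free N).filter (fun u => u.1 = c ∧ u.2.1 = s)).card =
      ((free N).filter (fun u => u.1 = c ∧ u.2.1 = s')).card := by
  have h := balance_general hN (fun u => u.1 = c ∧ u.2.1 = s) (fun u => u.1 = c ∧ u.2.1 = s') ?_ ?_
  · convert h
  · intro a b hp
    have hab := KK_adj.1 (edge_mem hN hp)
    constructor
    · rintro ⟨h, h'⟩
      exact ⟨hab.1 ▸ h, fin_two_eq hab.2 (h' ▸ hs)⟩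
    · rintro ⟨h, h'⟩
      exact ⟨hab.1.symm ▸ h, fin_two_eq hab.2.symm (h' ▸ hs.symm)⟩
  · have h1 := card_cell q r c s
    have h2 := card_cell q r c s'
    have h3 := h1.trans h2.symm
    convert h3

theorem KK_D {q r i : ℕ} {N : Finset (Sym2 (Fin q × Fin 2 × Fin r))}
    (hN : N ∈ mats (KK q r) i) (a : Fin q × Fin 2 × Fin r)
    (v : Fin q × Fin 2 × Fin r) (hv : v ∈ nb (KK q r) N a) :
    D (KK q r) N a = D (KK q r) N v := by
  classical
  have hav := KK_adj.1 (mem_nb.1 hv).2
  have e : ∀ x : Fin q × Fin 2 × Fin r, ∀ s : Fin 2, x.2.1 ≠ s → D (KK q r) N x =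
      ((free N).filter (fun u => u.1 = x.1 ∧ u.2.1 = s)).card := by
    intro x s hxs
    unfold D nb
    congr 1
    ext u
    simp only [Finset.mem_filter, KK_adj]
    constructor
    · rintro ⟨h1, h2, h3⟩; exact ⟨h1, h2.symm, fin_two_eq h3 hxs⟩
    · rintro ⟨h1, h2, h3⟩; exact ⟨h1, h2.symm, h3 ▸ hxs⟩
  rw [e a v.2.1 hav.2, e v a.2.1 hav.2.symm, hav.1]
  exact KK_balance hN v.1 hav.2.symm

theorem KK_card (q r : ℕ) : Fintype.card (Fin q × Fin 2 × Fin r) = 2 * (q * r) := by
  simp only [Fintype.card_prod, Fintype.card_fin]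
  ring

end Pool.Agent.Lib.MP_eeed5c_co
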