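import Pool.Agent.Lib.MP_eeed5c_co.Weights

/-!
Growth of the weighted sums of the array, by Abel summation.
-/

namespace Pool.Agent.Lib.MP_eeed5c_co

open Finset

/-- Abel summation. -/
theorem abel_le (f a : ℕ → ℝ) (R : ℕ)
    (h : ∀ j < R, 0 ≤ (f j - f (j + 1)) * ∑ m ∈ range (j + 1), a m) :
    f R * ∑ m ∈ range (R + 1), a m ≤ ∑ m ∈ range (R + 1), f m * a m := by
  induction R with
  | zero => simp
  | succ R ih =>
    have h1 := ih (fun j hj => h j (by omega))
    have h2 := h R (by omega)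
    rw [Finset.sum_range_succ (fun m => f m * a m), Finset.sum_range_succ a]
    nlinarith

/-- Triangular numbers. -/
noncomputable def Ps (a : ℕ) : ℝ := (a : ℝ) * (a + 1) / 2

theorem sum_id_ind (s m : ℕ) :
    ∑ l ∈ range s, ((l : ℝ) + 1) * (if l + 1 ≤ m then (1 : ℝ) else 0) = Ps (min m s) := by
  induction s with
  | zero => simp [Ps]
  | succ s ih =>
    rw [Finset.sum_range_succ, ih]
    unfold Ps
    by_cases h : s + 1 ≤ m
    · rw [if_pos h, min_eq_right (show s ≤ m by omega), min_eq_right h]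
      push_cast
      ring
    · rw [if_neg h, min_eq_left (show m ≤ s by omega), min_eq_left (show m ≤ s + 1 by omega)]
      ring

/-- The weighted partial sums. -/
noncomputable def LL (r t s : ℕ) : ℝ := ∑ l ∈ range s, ((l : ℝ) + 1) * nn r t (l + 1)

/-- The coefficients of the difference. -/
noncomputable def om (r s m : ℕ) : ℝ :=
  (if 1 ≤ m ∧ m ≤ s then 4 * ((r : ℝ) - 1) * m else 0) -
    (m : ℝ) * Ps (min m s) - ((r : ℝ) - 1 - m) * Ps (min (m + 1) s)

theorem LL_eq_ind {r t s : ℕ} (hs : s < r) : LL r t s =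
    ∑ m ∈ range r, (if 1 ≤ m ∧ m ≤ s then (m : ℝ) else 0) * nn r t m := by
  unfold LL
  have : ∑ m ∈ range r, (if 1 ≤ m ∧ m ≤ s then (m : ℝ) else 0) * nn r t m =
      ∑ m ∈ range (s + 1), (if 1 ≤ m ∧ m ≤ s then (m : ℝ) else 0) * nn r t m := by
    symm
    refine Finset.sum_subset ?_ ?_
    · intro m hm
      rw [Finset.mem_range] at *
      omega
    · intro m _ hm
      rw [Finset.mem_range] at hm
      rw [if_neg (by omega), zero_mul]
  rw [this, Finset.sum_range_succ']
  rw [if_neg (by omega), zero_mul, add_zero]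
  refine Finset.sum_congr rfl fun l hl => ?_
  rw [Finset.mem_range] at hl
  rw [if_pos (by omega)]
  push_cast
  ring

theorem LL_succ (r t s : ℕ) : LL r (t + 1) s =
    ∑ m ∈ range r, ((m : ℝ) * Ps (min m s) + ((r : ℝ) - 1 - m) * Ps (min (m + 1) s)) *
      nn r t m := by
  unfold LL
  have h1 : ∀ l ∈ range s, ((l : ℝ) + 1) * nn r (t + 1) (l + 1) =
      ∑ m ∈ range r, ((m : ℝ) * (((l : ℝ) + 1) * (if l + 1 ≤ m then (1 : ℝ) else 0)) +
        ((r : ℝ) - 1 - m) * (((l : ℝ) + 1) * (if l + 1 ≤ m + 1 then (1 : ℝ) else 0))) *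
        nn r t m := by
    intro l _
    rw [nn, Finset.mul_sum]
    refine Finset.sum_congr rfl fun m _ => ?_
    split_ifs <;> ring
  rw [Finset.sum_congr rfl h1, Finset.sum_comm]
  refine Finset.sum_congr rfl fun m _ => ?_
  rw [← Finset.sum_mul, Finset.sum_add_distrib, ← Finset.mul_sum, ← Finset.mul_sum,
    sum_id_ind, sum_id_ind]

theorem LL_diff {r t s : ℕ} (hs : s < r) : 4 * ((r : ℝ) - 1) * LL r t s - LL r (t + 1) s =
    ∑ m ∈ range r, om r s m * nn r t m := by
  rw [LL_eq_ind hs, LL_succ, Finset.mul_sum, ← Finset.sum_sub_distrib]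
  refine Finset.sum_congr rfl fun m _ => ?_
  unfold om
  split_ifs <;> ring

/-- Lower bound for the partial sums below `s`. -/
theorem Om_low {r s : ℕ} (j : ℕ) (hj : j < s) :
    ((r : ℝ) - 1) * ((j : ℝ) - 1) * (j + 1) * (j + 2) / 2 ^ (j + 1) ≤
      ∑ m ∈ range (j + 1), th m * om r s m := by
  induction j with
  | zero =>
    rw [Finset.sum_range_one]
    unfold om th Ps
    rw [if_neg (by omega), min_eq_left (show 0 ≤ s by omega), min_eq_left (show 0 + 1 ≤ s by omega)]
    norm_num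
  | succ j ih =>
    have h1 := ih (by omega)
    rw [Finset.sum_range_succ]
    refine le_trans ?_ (add_le_add_left h1 _)
    unfold om th Ps
    rw [if_pos (by omega), min_eq_left (show j + 1 ≤ s by omega),
      min_eq_left (show j + 1 + 1 ≤ s by omega)]
    rw [pow_succ 2 (j + 1)]
    push_cast
    have key : ((r : ℝ) - 1) * (j - 1) * (j + 1) * (j + 2) / 2 ^ (j + 1) +
        ((j : ℝ) + 1 + 1) / 2 ^ (j + 1) * (4 * (r - 1) * (j + 1) -
          (j + 1) * ((j + 1) * (j + 1 + 1) / 2) -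
          (r - 1 - (j + 1)) * ((j + 1 + 1) * (j + 1 + 1 + 1) / 2)) -
        ((r : ℝ) - 1) * (j + 1 - 1) * (j + 1 + 1) * (j + 1 + 2) / (2 ^ (j + 1) * 2) =
        ((j : ℝ) + 2) ^ 2 * (j + 1) / 2 ^ (j + 1) := by
      field_simp
      ring
    have hpos : 0 ≤ ((j : ℝ) + 2) ^ 2 * (j + 1) / 2 ^ (j + 1) := by positivity
    linarith

/-- Lower bound for the partial sums from `s` on. -/
theorem Om_high {r s : ℕ} (hs0 : 1 ≤ s) (i : ℕ) :
    ((r : ℝ) - 1) * Ps s * ((s : ℝ) + i + 3) / 2 ^ (s + i) ≤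
      ∑ m ∈ range (s + i + 1), th m * om r s m := by
  induction i with
  | zero =>
    obtain ⟨j, rfl⟩ : ∃ j, s = j + 1 := ⟨s - 1, by omega⟩
    have h1 := Om_low (r := r) (s := j + 1) j (by omega)
    rw [add_zero, Finset.sum_range_succ]
    refine le_trans ?_ (add_le_add_left h1 _)
    unfold om th Ps
    rw [if_pos (by omega), min_eq_left (le_refl _), min_eq_right (show j + 1 ≤ j + 1 + 1 by omega)]
    push_cast
    have key : ((r : ℝ) - 1) * (j - 1) * (j + 1) * (j + 2) / 2 ^ (j + 1) +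
        ((j : ℝ) + 1 + 1) / 2 ^ (j + 1) * (4 * (r - 1) * (j + 1) -
          (j + 1) * ((j + 1) * (j + 1 + 1) / 2) -
          (r - 1 - (j + 1)) * ((j + 1) * (j + 1 + 1) / 2)) =
        ((r : ℝ) - 1) * ((j + 1) * (j + 1 + 1) / 2) * (j + 1 + 0 + 3) / 2 ^ (j + 1) := by
      field_simp
      ring
    linarith
  | succ i ih =>
    rw [← add_assoc, Finset.sum_range_succ]
    refine le_trans ?_ (add_le_add_left ih _)
    unfold om
    rw [if_neg (by omega), min_eq_right (show s ≤ s + i + 1 by omega),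
      min_eq_right (show s ≤ s + i + 1 + 1 by omega)]
    unfold th
    rw [pow_succ 2 (s + i)]
    push_cast
    have key : ((r : ℝ) - 1) * Ps s * (s + i + 3) / 2 ^ (s + i) +
        ((s : ℝ) + i + 1 + 1) / (2 ^ (s + i) * 2) * (0 - (s + i + 1) * Ps s -
          (r - 1 - (s + i + 1)) * Ps s) =
        ((r : ℝ) - 1) * Ps s * (s + (i + 1) + 3) / (2 ^ (s + i) * 2) := by
      field_simp
      ring
    linarith

theorem Om_nonneg {r s : ℕ} (hs0 : 1 ≤ s) (hs : s < r) (j : ℕ) (hj : 1 ≤ j) :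
    0 ≤ ∑ m ∈ range (j + 1), th m * om r s m := by
  have hj1 : (1 : ℝ) ≤ j := by exact_mod_cast hj
  have hr1 : (0 : ℝ) ≤ (r : ℝ) - 1 := by
    have : 1 ≤ r := by omega
    have : (1 : ℝ) ≤ r := by exact_mod_cast this
    linarith
  rcases lt_or_ge j s with h | h
  · refine le_trans ?_ (Om_low j h)
    have : (0 : ℝ) ≤ (j : ℝ) - 1 := by linarith
    positivity
  · obtain ⟨i, rfl⟩ : ∃ i, j = s + i := ⟨j - s, by omega⟩
    refine le_trans ?_ (Om_high hs0 i)
    unfold Ps
    positivity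

/-- The growth of the partial sums is at most fourfold. -/
theorem LL_growth {r t s : ℕ} (hs0 : 1 ≤ s) (hs : s < r) :
    LL r (t + 2) s ≤ 4 * ((r : ℝ) - 1) * LL r (t + 1) s := by
  have h1 := LL_diff (t := t + 1) hs
  have h2 : 0 ≤ ∑ m ∈ range r, om r s m * nn r (t + 1) m := by
    obtain ⟨R, rfl⟩ : ∃ R, r = R + 1 := ⟨r - 1, by omega⟩
    have e : ∀ m ∈ range (R + 1), om (R + 1) s m * nn (R + 1) (t + 1) m =
        ph (R + 1) (t + 1) m * (th m * om (R + 1) s m) := by
      intro m _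
      rw [nn_eq]; ring
    rw [Finset.sum_congr rfl e]
    refine le_trans ?_ (abel_le (ph (R + 1) (t + 1)) (fun m => th m * om (R + 1) s m) R ?_)
    · refine mul_nonneg (ph_nonneg _ _ _) (Om_nonneg hs0 hs R (by omega))
    · intro j _
      rcases Nat.eq_zero_or_pos j with rfl | hj
      · have : ph (R + 1) (t + 1) 0 = ph (R + 1) (t + 1) (0 + 1) := by
          unfold ph
          rw [nn_zero_one]
          have h1 : th 0 = 1 := by unfold th; norm_num
          have h2 : th (0 + 1) = 1 := by unfold th; norm_num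
          rw [h1, h2]
        rw [this, sub_self, zero_mul]
      · refine mul_nonneg ?_ (Om_nonneg hs0 hs j hj)
        have := ph_anti (r := R + 1) (by omega) (t + 1) j
        linarith
  have e : t + 1 + 1 = t + 2 := rfl
  rw [e] at h1
  linarith

/-- The functions. -/
noncomputable def GG (r t d : ℕ) : ℝ := ∑ l ∈ range r,
  (d.descFactorial l : ℝ) * ((r - 1 - l).factorial : ℝ) / ((r - 1).factorial : ℝ) * nn r t l

theorem df_succ (d l : ℕ) :
    ((d.descFactorial (l + 1) : ℕ) : ℝ) = ((d : ℝ) - l) * (d.descFactorial l : ℕ) := by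
  rw [Nat.descFactorial_succ]
  rcases le_or_gt l d with h | h
  · rw [Nat.cast_mul, Nat.cast_sub h]
  · rw [Nat.descFactorial_of_lt h]
    simp

theorem df_succ_succ (d l : ℕ) :
    (((d + 1).descFactorial (l + 1) : ℕ) : ℝ) = ((d : ℝ) + 1) * (d.descFactorial l : ℕ) := by
  rw [Nat.succ_descFactorial_succ]
  push_cast
  ring

theorem GG_zero {r : ℕ} (hr : 1 ≤ r) (d : ℕ) : GG r 0 d = 1 := by
  unfold GG
  obtain ⟨R, rfl⟩ : ∃ R, r = R + 1 := ⟨r - 1, by omega⟩
  rw [Finset.sum_range_succ', Finset.sum_eq_zero]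
  · rw [nn]
    simp only [Nat.descFactorial_zero, Nat.cast_one, one_mul, if_true, mul_one, zero_add]
    exact div_self (by exact_mod_cast (Nat.factorial_pos _).ne')
  · intro l _
    rw [nn, if_neg (by omega), mul_zero]

/-- Differences of the functions. -/
theorem GG_diff {R t d : ℕ} : GG (R + 1) t (d + 1) - GG (R + 1) t d =
    ∑ l ∈ range R, ((d.descFactorial l : ℝ) * ((R - (l + 1)).factorial : ℝ) /
      ((R).factorial : ℝ)) * (((l : ℝ) + 1) * nn (R + 1) t (l + 1)) := by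
  unfold GG
  rw [← Finset.sum_sub_distrib, Finset.sum_range_succ']
  simp only [Nat.descFactorial_zero, sub_self, add_zero]
  refine Finset.sum_congr rfl fun l hl => ?_
  rw [df_succ_succ, df_succ]
  have e : R + 1 - 1 - (l + 1) = R - (l + 1) := by omega
  rw [e, Nat.add_sub_cancel]
  ring

theorem GG_mono {R t d : ℕ} : 0 ≤ GG (R + 1) t (d + 1) - GG (R + 1) t d := by
  rw [GG_diff]
  refine Finset.sum_nonneg fun l _ => ?_
  have := nn_nonneg (R + 1) t (l + 1)
  positivity

theorem chi_anti {R d l : ℕ} (hd : d + 1 ≤ R) (hl : l + 1 < R) :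
    (d.descFactorial (l + 1) : ℝ) * ((R - (l + 1 + 1)).factorial : ℝ) / ((R).factorial : ℝ) ≤
      (d.descFactorial l : ℝ) * ((R - (l + 1)).factorial : ℝ) / ((R).factorial : ℝ) := by
  refine div_le_div_of_nonneg_right ?_ (by positivity)
  have e : R - (l + 1) = (R - (l + 1 + 1)) + 1 := by omega
  rw [df_succ, e, Nat.factorial_succ, Nat.cast_mul]
  have h1 : ((R - (l + 1 + 1) : ℕ) : ℝ) = (R : ℝ) - (l + 1 + 1) := by
    rw [Nat.cast_sub (by omega)]; push_cast; ring
  rw [Nat.cast_add, h1]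
  have h2 : (d : ℝ) + 1 ≤ R := by exact_mod_cast hd
  have h3 : (0 : ℝ) ≤ (d.descFactorial l : ℝ) * ((R - (l + 1 + 1)).factorial : ℝ) := by positivity
  push_cast
  nlinarith [mul_nonneg h3 (sub_nonneg.2 h2)]

theorem GG_growth {R t d : ℕ} (hd : d + 1 ≤ R) :
    GG (R + 1) (t + 2) (d + 1) - GG (R + 1) (t + 2) d ≤
      4 * (R : ℝ) * (GG (R + 1) (t + 1) (d + 1) - GG (R + 1) (t + 1) d) := by
  rw [GG_diff, GG_diff]
  obtain ⟨S, rfl⟩ : ∃ S, R = S + 1 := ⟨R - 1, by omega⟩
  rw [← sub_nonneg, Finset.mul_sum, ← Finset.sum_sub_distrib]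
  set f : ℕ → ℝ := fun l => (d.descFactorial l : ℝ) * ((S + 1 - (l + 1)).factorial : ℝ) /
      ((S + 1).factorial : ℝ) with hf
  set a : ℕ → ℝ := fun l => 4 * ((S + 1 : ℕ) : ℝ) * (((l : ℝ) + 1) *
    nn (S + 1 + 1) (t + 1) (l + 1)) - ((l : ℝ) + 1) * nn (S + 1 + 1) (t + 2) (l + 1) with ha
  have hsum : ∀ s, 1 ≤ s → s < S + 1 + 1 → 0 ≤ ∑ m ∈ range s, a m := by
    intro s hs0 hs
    have := LL_growth (t := t) hs0 hs
    unfold LL at this
    rw [ha, Finset.sum_sub_distrib, ← Finset.mul_sum]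
    push_cast at this ⊢
    linarith
  have h1 : 0 ≤ ∑ l ∈ range (S + 1), f l * a l := by
    refine le_trans ?_ (abel_le f a S ?_)
    · refine mul_nonneg ?_ (hsum _ (by omega) (by omega))
      simp only [hf]
      positivity
    · intro j hj
      refine mul_nonneg ?_ (hsum _ (by omega) (by omega))
      simp only [hf]
      rw [sub_nonneg]
      exact chi_anti hd (by omega)
  refine h1.trans (le_of_eq ?_)
  refine Finset.sum_congr rfl fun l _ => ?_
  simp only [hf, ha]
  ring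

end Pool.Agent.Lib.MP_eeed5c_co
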