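import Pool.Agent.Lib.MP_eeed5c_co.Complete

/-!
The upper matching conjecture for graphs on `2 r` vertices.
-/

namespace Pool.Agent.Lib.MP_eeed5c_co

open Finset

section

variable {V : Type*} [Fintype V] {G : SimpleGraph V}

theorem card_mats_zero : (mats G 0).card = 1 := by
  have : mats G 0 = {∅} := by
    ext s
    rw [mem_mats, Finset.mem_singleton, Finset.card_eq_zero]
    constructor
    · rintro ⟨_, h, _⟩; exact h
    · rintro rfl
      simp
  rw [this, Finset.card_singleton]

theorem D_zero {r : ℕ} (hreg : ∀ v : V,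
      (by classical exact (univ.filter fun u => G.Adj v u).card) = r)
    {N : Finset (Sym2 V)} (hN : N ∈ mats G 0) (v : V) : D G N v = r := by
  classical
  have h0 : N = ∅ := Finset.card_eq_zero.1 (mem_mats.1 hN).2.1
  subst h0
  rw [← hreg v]
  unfold D nb
  congr 1
  ext u
  simp [mem_free]

theorem Phi_zero {r : ℕ} (hreg : ∀ v : V,
      (by classical exact (univ.filter fun u => G.Adj v u).card) = r) (h : ℕ → ℝ) :
    Phi G 0 h = Fintype.card V * h r := by
  have h1 : Phi G 0 h = Phi G 0 (fun _ => h r) := by
    unfold Phi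
    refine Finset.sum_congr rfl fun N hN => Finset.sum_congr rfl fun v _ => ?_
    rw [D_zero hreg hN v]
  rw [h1, Phi_const, card_mats_zero]
  push_cast
  ring

theorem card_mats_one {r : ℕ} (hreg : ∀ v : V,
      (by classical exact (univ.filter fun u => G.Adj v u).card) = r) :
    2 * ((mats G 1).card : ℝ) = Fintype.card V * r := by
  have h1 := Phi_D (G := G) 0
  rw [Phi_zero hreg] at h1
  push_cast at h1
  have : mats G (0 + 1) = mats G 1 := rfl
  rw [this] at h1
  linarith

theorem card_mats_eq_zero {k : ℕ} (h : Fintype.card V < 2 * k) : (mats G k).card = 0 := by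
  rw [Finset.card_eq_zero, Finset.eq_empty_iff_forall_notMem]
  intro M hM
  have := card_free hM
  omega

/-- The number of matchings, as in the statement of the problem. -/
theorem ncard_eq (G : SimpleGraph V) (k : ℕ) :
    Set.ncard {s : Finset (Sym2 V) |
      (↑s : Set (Sym2 V)) ⊆ G.edgeSet ∧ s.card = k ∧
      (↑s : Set (Sym2 V)).Pairwise (fun e f => ∀ v : V, v ∈ e → v ∉ f)} = (mats G k).card := by
  rw [← Set.ncard_coe_finset]
  congr 1
  ext s
  rw [Finset.mem_coe, mem_mats]
  rfl

theorem reg_of_ncard {r : ℕ} (h : ∀ v : V, (G.neighborSet v).ncard = r) (v : V) :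
    (by classical exact (univ.filter fun u => G.Adj v u).card) = r := by
  classical
  have h1 : (G.neighborSet v) = ((univ.filter fun u => G.Adj v u : Finset V) : Set V) := by
    ext u
    simp
  have h2 := h v
  rw [h1, Set.ncard_coe_finset] at h2
  exact h2

end

/-- The recursion for the complete bipartite graph. -/
theorem KK_one_rec (r j : ℕ) :
    ((j : ℝ) + 1) * (mats (KK 1 r) (j + 1)).card = ((r : ℝ) - j) ^ 2 * (mats (KK 1 r) j).card := by
  classical
  have h1 := Phi_D (G := KK 1 r) j
  have h2 : Phi (KK 1 r) j (fun d => (d : ℝ)) = Phi (KK 1 r) j (fun _ => (r : ℝ) - j) := by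
    unfold Phi
    refine Finset.sum_congr rfl fun N hN => Finset.sum_congr rfl fun v _ => ?_
    have hf := card_free hN
    rw [KK_card] at hf
    have hb := KK_balance hN v.1 (s := v.2.1) (s' := 1 - v.2.1) (by omega)
    have hD : D (KK 1 r) N v = ((free N).filter (fun u => u.1 = v.1 ∧ u.2.1 = 1 - v.2.1)).card := by
      unfold D nb
      congr 1
      ext u
      simp only [Finset.mem_filter, KK_adj]
      constructor
      · rintro ⟨h1, h2, h3⟩; exact ⟨h1, h2.symm, by omega⟩
      · rintro ⟨h1, h2, h3⟩; exact ⟨h1, h2.symm, by omega⟩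
    have hsum : ((free N).filter (fun u => u.1 = v.1 ∧ u.2.1 = v.2.1)).card +
        ((free N).filter (fun u => u.1 = v.1 ∧ u.2.1 = 1 - v.2.1)).card = (free N).card := by
      rw [← Finset.card_union_of_disjoint]
      · congr 1
        ext u
        simp only [Finset.mem_union, Finset.mem_filter]
        have h3 : u.1 = v.1 := Subsingleton.elim _ _
        have h4 : u.2.1 = v.2.1 ∨ u.2.1 = 1 - v.2.1 := by omega
        tauto
      · rw [Finset.disjoint_left]
        intro u hu hu'
        simp only [Finset.mem_filter] at hu hu'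
        have h3 := hu.2.2
        have h4 := hu'.2.2
        omega
    have h5 : D (KK 1 r) N v + j = r := by
      rw [hD]
      have e1 : ((free N).filter (fun u => u.1 = v.1 ∧ u.2.1 = v.2.1)).card =
        ((free N).filter (fun u => u.1 = v.1 ∧ u.2.1 = 1 - v.2.1)).card := by
        convert hb
      omega
    have h6 : (D (KK 1 r) N v : ℝ) + j = r := by exact_mod_cast h5
    linarith
  rw [h2, Phi_const, KK_card] at h1
  push_cast at h1
  nlinarith [h1]

/-- Graphs on `2 r` vertices. -/
theorem one_block {V : Type*} [Fintype V] {G : SimpleGraph V} {r : ℕ}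
    (hV : Fintype.card V = 2 * r) (hreg : ∀ v : V,
      (by classical exact (univ.filter fun u => G.Adj v u).card) = r) (k : ℕ) (hk : k ≤ r) :
    (mats G k).card ≤ (mats (KK 1 r) k).card := by
  have hmain : ((mats G k).card : ℝ) ≤ (mats (KK 1 r) k).card := by
    induction k with
    | zero => rw [card_mats_zero, card_mats_zero]
    | succ j ih =>
      have ih' := ih (by omega)
      rcases Nat.eq_zero_or_pos j with rfl | hj
      · have h1 := card_mats_one hreg
        have h2 := KK_one_rec r 0
        rw [card_mats_zero] at h2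
        rw [hV] at h1
        push_cast at h1 h2
        simp only [zero_add, one_mul, sub_zero, mul_one] at h2 ⊢
        have e : ((mats (KK 1 r) (0 + 1)).card : ℝ) = (mats (KK 1 r) 1).card := rfl
        nlinarith [h1, h2]
      · obtain ⟨i, rfl⟩ : ∃ i, j = i + 1 := ⟨j - 1, by omega⟩
        have h1 := ratio_bound hV hreg i
        have h2 := KK_one_rec r (i + 1)
        have hr : (i : ℝ) + 2 ≤ r := by exact_mod_cast hk
        have hi0 : (0 : ℝ) ≤ i := Nat.cast_nonneg i
        push_cast at h2
        have e1 : mats G (i + 1 + 1) = mats G (i + 2) := rfl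
        have e2 : mats (KK 1 r) (i + 1 + 1) = mats (KK 1 r) (i + 2) := rfl
        rw [e2] at h2
        rw [e1, e2]
        have h3 : ((i : ℝ) + 2) * (mats G (i + 2)).card ≤
            ((r : ℝ) - (i + 1)) ^ 2 * (mats G (i + 1)).card := by
          have hr1 : (0 : ℝ) < r - 1 := by linarith
          have h4 : ((r : ℝ) - 1) * (((i : ℝ) + 2) * (mats G (i + 2)).card) ≤
              ((r : ℝ) - 1) * (((r : ℝ) - (i + 1)) ^ 2 * (mats G (i + 1)).card) := by
            calc ((r : ℝ) - 1) * (((i : ℝ) + 2) * (mats G (i + 2)).card)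
                = ((i : ℝ) + 2) * (r - 1) * (mats G (i + 2)).card := by ring
              _ ≤ _ := h1
              _ = _ := by ring
          exact le_of_mul_le_mul_left h4 hr1
        have h5 : ((r : ℝ) - (i + 1)) ^ 2 * (mats G (i + 1)).card ≤
            ((r : ℝ) - (i + 1)) ^ 2 * (mats (KK 1 r) (i + 1)).card :=
          mul_le_mul_of_nonneg_left ih' (sq_nonneg _)
        have h6 : ((i : ℝ) + 2) * (mats G (i + 2)).card ≤
            ((i : ℝ) + 2) * (mats (KK 1 r) (i + 2)).card := by
          have e3 : ((i : ℝ) + 1 + 1) = (i : ℝ) + 2 := by ring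
          rw [e3] at h2
          rw [h2]
          linarith
        exact le_of_mul_le_mul_left h6 (by linarith)
  exact_mod_cast hmain

end Pool.Agent.Lib.MP_eeed5c_co
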