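import Pool.Agent.Lib.MP_eeed5c_co.Basic

/-!
The step inequality between consecutive sizes of matchings.
-/

namespace Pool.Agent.Lib.MP_eeed5c_co

open Finset

/-- The sum of `h (D v)` over all matchings with `i` edges and all uncovered vertices. -/
noncomputable def Phi {V : Type*} [Fintype V] (G : SimpleGraph V) (i : ℕ) (h : ℕ → ℝ) : ℝ :=
  ∑ N ∈ mats G i, ∑ v ∈ free N, h (D G N v)

section

variable {V : Type*} [Fintype V] {G : SimpleGraph V}

theorem Phi_const (i : ℕ) (c : ℝ) :
    Phi G i (fun _ => c) = ((Fintype.card V : ℝ) - 2 * i) * (mats G i).card * c := by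
  unfold Phi
  have : ∀ N ∈ mats G i, ∑ v ∈ free N, c = ((Fintype.card V : ℝ) - 2 * i) * c := by
    intro N hN
    rw [Finset.sum_const, nsmul_eq_mul]
    have h := card_free hN
    have h' : ((free N).card : ℝ) + 2 * i = Fintype.card V := by exact_mod_cast h
    rw [← h']; ring
  rw [Finset.sum_congr rfl this, Finset.sum_const, nsmul_eq_mul]
  ring

theorem Phi_add (i : ℕ) (f g : ℕ → ℝ) :
    Phi G i (fun d => f d + g d) = Phi G i f + Phi G i g := by
  unfold Phi
  rw [← Finset.sum_add_distrib]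
  refine Finset.sum_congr rfl fun N _ => ?_
  rw [← Finset.sum_add_distrib]

theorem Phi_smul (i : ℕ) (c : ℝ) (f : ℕ → ℝ) : Phi G i (fun d => c * f d) = c * Phi G i f := by
  unfold Phi
  rw [Finset.mul_sum]
  refine Finset.sum_congr rfl fun N _ => ?_
  rw [Finset.mul_sum]

theorem Phi_congr (i : ℕ) {r : ℕ} (hr : ∀ N ∈ mats G i, ∀ v ∈ free N, D G N v ≤ r) {f g : ℕ → ℝ}
    (h : ∀ d ≤ r, f d = g d) : Phi G i f = Phi G i g := by
  unfold Phi
  exact Finset.sum_congr rfl fun N hN => Finset.sum_congr rfl fun v hv => h _ (hr N hN v hv)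

open scoped Classical in
theorem sum_pairs (N : Finset (Sym2 V)) (f : V × V → ℝ) :
    ∑ p ∈ univ.filter (fun p : V × V => p.1 ∈ free N ∧ p.2 ∈ free N ∧ G.Adj p.1 p.2), f p =
      ∑ a ∈ free N, ∑ b ∈ nb G N a, f (a, b) := by
  rw [Finset.sum_sigma']
  refine Finset.sum_bij' (fun p _ => ⟨p.1, p.2⟩) (fun x _ => (x.1, x.2)) ?_ ?_ ?_ ?_ ?_
  · rintro ⟨a, b⟩ h
    simpa [mem_nb] using h
  · rintro ⟨a, b⟩ h
    simpa [mem_nb] using h
  · rintro ⟨a, b⟩ _; rfl
  · rintro ⟨a, b⟩ _; rfl
  · rintro ⟨a, b⟩ _; rfl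

theorem sum_nb_comm (N : Finset (Sym2 V)) (f : V → V → ℝ) :
    ∑ a ∈ free N, ∑ b ∈ nb G N a, f a b = ∑ a ∈ free N, ∑ b ∈ nb G N a, f b a := by
  refine Finset.sum_comm' ?_
  intro x y
  simp only [mem_nb]
  constructor
  · rintro ⟨h1, h2, h3⟩; exact ⟨⟨h1, h3.symm⟩, h2⟩
  · rintro ⟨⟨h1, h2⟩, h3⟩; exact ⟨h1, h3, h2.symm⟩

open scoped Classical in
theorem sum_erase_swap (S : Finset V) (g : V → ℝ) :
    ∑ b ∈ S, ∑ v ∈ S.erase b, g v = ∑ v ∈ S, ((S.card : ℝ) - 1) * g v := by
  have h : ∀ b ∈ S, ∑ v ∈ S.erase b, g v = ∑ v ∈ S, g v - g b := by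
    intro b hb
    rw [← Finset.add_sum_erase S g hb]; ring
  rw [Finset.sum_congr rfl h, Finset.sum_sub_distrib, Finset.sum_const, nsmul_eq_mul,
    Finset.mul_sum, ← Finset.sum_sub_distrib]
  refine Finset.sum_congr rfl fun v _ => ?_
  ring

theorem Phi_D (i : ℕ) :
    Phi G i (fun d => (d : ℝ)) = 2 * (i + 1) * (mats G (i + 1)).card := by
  classical
  have h := sum_insert (G := G) i (fun _ _ => (1 : ℝ))
  have h1 : ∀ M ∈ mats G (i + 1),
      ∑ p ∈ univ.filter (fun p : V × V => s(p.1, p.2) ∈ M), (1 : ℝ) = 2 * (i + 1) := by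
    intro M hM
    have := sum_darts hM (fun _ => (1 : ℝ))
    rw [this, Finset.sum_const, nsmul_eq_mul, mul_one]
    have h2 := card_covered hM
    exact_mod_cast h2
  rw [Finset.sum_congr rfl h1, Finset.sum_const, nsmul_eq_mul] at h
  unfold Phi
  rw [mul_comm, h]
  refine Finset.sum_congr rfl fun N _ => ?_
  rw [sum_pairs]
  refine Finset.sum_congr rfl fun v _ => ?_
  rw [Finset.sum_const, nsmul_eq_mul, mul_one]
  rfl

open scoped Classical in
/-- Exact form of the step. -/
theorem step_exact {r : ℕ} (hreg : ∀ v : V, (univ.filter fun u => G.Adj v u).card = r)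
    (i : ℕ) (w : ℕ → ℝ) :
    Phi G (i + 1) (fun d => ((r : ℝ) - d) * w d) =
      ∑ N ∈ mats G i, ∑ a ∈ free N, ∑ b ∈ nb G N a,
        ∑ v ∈ (nb G N a).erase b, w (D G (insert s(a, b) N) v) := by
  have key : ∀ M : Finset (Sym2 V), M ∈ mats G (i + 1) →
      ∑ v ∈ free M, ((r : ℝ) - (D G M v : ℕ)) * w (D G M v) =
      ∑ p ∈ univ.filter (fun p : V × V => s(p.1, p.2) ∈ M), ∑ v ∈ nb G M p.1, w (D G M v) := by
    intro M hM
    rw [sum_darts hM (fun a => ∑ v ∈ nb G M a, w (D G M v))]
    have h1 : ∀ v ∈ free M, ((r : ℝ) - (D G M v : ℕ)) * w (D G M v) =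
        ∑ a ∈ (univ.filter (fun a => a ∉ free M)).filter (fun a => G.Adj v a), w (D G M v) := by
      intro v _
      rw [Finset.sum_const, nsmul_eq_mul]
      congr 1
      have h2 : D G M v + ((univ.filter (fun a => a ∉ free M)).filter (fun a => G.Adj v a)).card
          = r := by
        rw [← hreg v]
        unfold D nb
        rw [← Finset.card_union_of_disjoint]
        · congr 1
          ext u
          simp only [Finset.mem_union, Finset.mem_filter, Finset.mem_univ, true_and]
          tauto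
        · rw [Finset.disjoint_left]
          intro u hu hu'
          simp only [Finset.mem_filter, Finset.mem_univ, true_and] at hu hu'
          exact hu'.1 hu.1
      have h3 : (D G M v : ℝ) + ((univ.filter (fun a => a ∉ free M)).filter
          (fun a => G.Adj v a)).card = r := by exact_mod_cast h2
      linarith
    rw [Finset.sum_congr rfl h1]
    refine Finset.sum_comm' ?_
    intro x y
    simp only [Finset.mem_filter, Finset.mem_univ, true_and, mem_nb]
    constructor
    · rintro ⟨h1, h2, h3⟩; exact ⟨⟨h1, h3.symm⟩, h2⟩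
    · rintro ⟨⟨h1, h2⟩, h3⟩; exact ⟨h1, h3, h2.symm⟩
  unfold Phi
  rw [Finset.sum_congr rfl key,
    sum_insert (G := G) i (fun M p => ∑ v ∈ nb G M p.1, w (D G M v))]
  refine Finset.sum_congr rfl fun N hN => ?_
  rw [sum_pairs]
  refine Finset.sum_congr rfl fun a ha => ?_
  refine Finset.sum_congr rfl fun b hb => ?_
  have : nb G (insert s(a, b) N) a = (nb G N a).erase b := by
    ext v
    simp only [mem_nb, Finset.mem_erase, mem_free_insert]
    constructor
    · rintro ⟨⟨h1, h2, h3⟩, h4⟩; exact ⟨h3, h1, h4⟩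
    · rintro ⟨h3, h1, h4⟩; exact ⟨⟨h1, h4.ne', h3⟩, h4⟩
  simp only [this]

open scoped Classical in
/-- The number of uncovered neighbours after the insertion of an edge at a neighbour. -/
theorem D_insert {N : Finset (Sym2 V)} {a b v : V} (ha : a ∈ free N) (hb : b ∈ nb G N a)
    (hv : v ∈ (nb G N a).erase b) :
    D G (insert s(a, b) N) v + 1 + (if G.Adj v b then 1 else 0) = D G N v := by
  rw [Finset.mem_erase, mem_nb] at hv
  rw [mem_nb] at hb
  have hav : a ∈ nb G N v := mem_nb.2 ⟨ha, hv.2.2.symm⟩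
  by_cases h : G.Adj v b
  · rw [if_pos h]
    have hset : nb G (insert s(a, b) N) v = ((nb G N v).erase a).erase b := by
      ext u
      simp only [mem_nb, Finset.mem_erase, mem_free_insert]
      tauto
    have hb' : b ∈ (nb G N v).erase a := by
      rw [Finset.mem_erase, mem_nb]
      exact ⟨hb.2.ne', hb.1, h⟩
    unfold D
    rw [hset, Finset.card_erase_of_mem hb', Finset.card_erase_of_mem hav]
    have h1 : 0 < ((nb G N v).erase a).card := Finset.card_pos.2 ⟨b, hb'⟩
    rw [Finset.card_erase_of_mem hav] at h1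
    omega
  · rw [if_neg h]
    have hset : nb G (insert s(a, b) N) v = (nb G N v).erase a := by
      ext u
      simp only [mem_nb, Finset.mem_erase, mem_free_insert]
      constructor
      · rintro ⟨⟨h1, h2, h3⟩, h4⟩; exact ⟨h2, h1, h4⟩
      · rintro ⟨h2, h1, h4⟩
        refine ⟨⟨h1, h2, ?_⟩, h4⟩
        rintro rfl
        exact h h4
    unfold D
    rw [hset, Finset.card_erase_of_mem hav]
    have h1 : 0 < (nb G N v).card := Finset.card_pos.2 ⟨a, hav⟩
    omega

/-- The sum over paths of length two, centred. -/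
theorem sum_paths (N : Finset (Sym2 V)) (g : V → ℝ) :
    (by classical exact ∑ a ∈ free N, ∑ b ∈ nb G N a, ∑ v ∈ (nb G N a).erase b, g v) =
      ∑ a ∈ free N, ∑ v ∈ nb G N a, ((D G N a : ℝ) - 1) * g v := by
  refine Finset.sum_congr rfl fun a _ => ?_
  exact sum_erase_swap _ _

/-- The step inequality. -/
theorem step_le {r : ℕ} (hreg : ∀ v : V,
      (by classical exact (univ.filter fun u => G.Adj v u).card) = r)
    (i : ℕ) (w : ℕ → ℝ) (hw : ∀ a b, a ≤ b → b < r → w a ≤ w b) :
    Phi G (i + 1) (fun d => ((r : ℝ) - d) * w d) ≤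
      Phi G i (fun d => (d : ℝ) * (d - 1) * w (d - 1)) := by
  classical
  have hreg' : ∀ v : V, (univ.filter fun u => G.Adj v u).card = r := by
    intro v; rw [← hreg v]
  rw [step_exact hreg' i w]
  unfold Phi
  refine Finset.sum_le_sum fun N hN => ?_
  have hDr : ∀ v, D G N v ≤ r := by
    intro v
    rw [← hreg' v]
    unfold D nb
    exact Finset.card_le_card (Finset.filter_subset_filter _ (Finset.subset_univ _))
  calc ∑ a ∈ free N, ∑ b ∈ nb G N a, ∑ v ∈ (nb G N a).erase b, w (D G (insert s(a, b) N) v)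
      ≤ ∑ a ∈ free N, ∑ b ∈ nb G N a, ∑ v ∈ (nb G N a).erase b, w (D G N v - 1) := by
        refine Finset.sum_le_sum fun a ha => Finset.sum_le_sum fun b hb =>
          Finset.sum_le_sum fun v hv => ?_
        have h1 := D_insert ha hb hv
        have h2 := hDr v
        refine hw _ _ ?_ ?_
        · omega
        · omega
    _ = ∑ a ∈ free N, ∑ v ∈ nb G N a, ((D G N a : ℝ) - 1) * w (D G N v - 1) :=
        sum_paths N (fun v => w (D G N v - 1))
    _ ≤ ∑ a ∈ free N, ∑ v ∈ nb G N a, ((D G N a : ℝ) - 1) * w (D G N a - 1) := by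
        have hnn : 0 ≤ ∑ a ∈ free N, ∑ v ∈ nb G N a,
            ((D G N a : ℝ) - D G N v) * (w (D G N a - 1) - w (D G N v - 1)) := by
          refine Finset.sum_nonneg fun a ha => Finset.sum_nonneg fun v hv => ?_
          have ha' := hDr a
          have hv' := hDr v
          have hposv : 0 < D G N v := Finset.card_pos.2 ⟨a, mem_nb.2 ⟨ha, (mem_nb.1 hv).2.symm⟩⟩
          have hposa : 0 < D G N a := Finset.card_pos.2 ⟨v, hv⟩
          rcases le_total (D G N a) (D G N v) with h | h
          · have h1 : (D G N a : ℝ) ≤ D G N v := by exact_mod_cast h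
            have h2 := hw (D G N a - 1) (D G N v - 1) (by omega) (by omega)
            exact mul_nonneg_of_nonpos_of_nonpos (by linarith) (by linarith)
          · have h1 : (D G N v : ℝ) ≤ D G N a := by exact_mod_cast h
            have h2 := hw (D G N v - 1) (D G N a - 1) (by omega) (by omega)
            exact mul_nonneg (by linarith) (by linarith)
        have hc1 := sum_nb_comm (G := G) N (fun a v => ((D G N a : ℝ) - 1) * w (D G N v - 1))
        have hc2 := sum_nb_comm (G := G) N (fun a v => ((D G N a : ℝ) - 1) * w (D G N a - 1))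
        have hexp : ∑ a ∈ free N, ∑ v ∈ nb G N a,
            ((D G N a : ℝ) - D G N v) * (w (D G N a - 1) - w (D G N v - 1)) =
            (∑ a ∈ free N, ∑ v ∈ nb G N a, ((D G N a : ℝ) - 1) * w (D G N a - 1)) +
            (∑ a ∈ free N, ∑ v ∈ nb G N a, ((D G N v : ℝ) - 1) * w (D G N v - 1)) -
            (∑ a ∈ free N, ∑ v ∈ nb G N a, ((D G N a : ℝ) - 1) * w (D G N v - 1)) -
            (∑ a ∈ free N, ∑ v ∈ nb G N a, ((D G N v : ℝ) - 1) * w (D G N a - 1)) := by
          rw [← Finset.sum_add_distrib, ← Finset.sum_sub_distrib, ← Finset.sum_sub_distrib]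
          refine Finset.sum_congr rfl fun a _ => ?_
          rw [← Finset.sum_add_distrib, ← Finset.sum_sub_distrib, ← Finset.sum_sub_distrib]
          refine Finset.sum_congr rfl fun v _ => ?_
          ring
        rw [hexp] at hnn
        linarith
    _ = ∑ a ∈ free N, (D G N a : ℝ) * (D G N a - 1) * w (D G N a - 1) := by
        refine Finset.sum_congr rfl fun a _ => ?_
        rw [Finset.sum_const, nsmul_eq_mul]
        unfold D
        ring

/-- The step is an equality for good graphs. -/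
theorem step_eq {r : ℕ} (hreg : ∀ v : V,
      (by classical exact (univ.filter fun u => G.Adj v u).card) = r)
    (htri : ∀ a b v : V, G.Adj a b → G.Adj a v → ¬ G.Adj v b) (i : ℕ)
    (hD : ∀ N ∈ mats G i, ∀ a ∈ free N, ∀ v ∈ nb G N a, D G N a = D G N v)
    (w : ℕ → ℝ) :
    Phi G (i + 1) (fun d => ((r : ℝ) - d) * w d) =
      Phi G i (fun d => (d : ℝ) * (d - 1) * w (d - 1)) := by
  classical
  have hreg' : ∀ v : V, (univ.filter fun u => G.Adj v u).card = r := by
    intro v; rw [← hreg v]
  rw [step_exact hreg' i w]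
  unfold Phi
  refine Finset.sum_congr rfl fun N hN => ?_
  calc ∑ a ∈ free N, ∑ b ∈ nb G N a, ∑ v ∈ (nb G N a).erase b, w (D G (insert s(a, b) N) v)
      = ∑ a ∈ free N, ∑ b ∈ nb G N a, ∑ v ∈ (nb G N a).erase b, w (D G N v - 1) := by
        refine Finset.sum_congr rfl fun a ha => Finset.sum_congr rfl fun b hb =>
          Finset.sum_congr rfl fun v hv => ?_
        have h1 := D_insert ha hb hv
        have h3 : ¬ G.Adj v b :=
          htri a b v (mem_nb.1 hb).2 (mem_nb.1 (Finset.mem_of_mem_erase hv)).2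
        rw [if_neg h3] at h1
        congr 1
        omega
    _ = ∑ a ∈ free N, ∑ v ∈ nb G N a, ((D G N a : ℝ) - 1) * w (D G N v - 1) :=
        sum_paths N (fun v => w (D G N v - 1))
    _ = ∑ a ∈ free N, ∑ v ∈ nb G N a, ((D G N a : ℝ) - 1) * w (D G N a - 1) := by
        refine Finset.sum_congr rfl fun a ha => Finset.sum_congr rfl fun v hv => ?_
        rw [hD N hN a ha v hv]
    _ = ∑ a ∈ free N, (D G N a : ℝ) * (D G N a - 1) * w (D G N a - 1) := by
        refine Finset.sum_congr rfl fun a _ => ?_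
        rw [Finset.sum_const, nsmul_eq_mul]
        unfold D
        ring

end

end Pool.Agent.Lib.MP_eeed5c_co
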