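import Pool.Agent.Lib.MP_eeed5c_co.Step

/-!
A bound for the ratio of consecutive matching numbers of a regular graph, by the Cauchy-Schwarz
inequality for the degrees in the graph left over by a matching.
-/

namespace Pool.Agent.Lib.MP_eeed5c_co

open Finset

section

variable {V : Type*} [Fintype V] {G : SimpleGraph V}

/-- Twice the number of edges between uncovered vertices. -/
noncomputable def EE (G : SimpleGraph V) (N : Finset (Sym2 V)) : ℝ := ∑ v ∈ free N, (D G N v : ℝ)

theorem sum_EE (i : ℕ) : ∑ N ∈ mats G i, EE G N = 2 * (i + 1) * (mats G (i + 1)).card := by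
  rw [← Phi_D]
  rfl

open scoped Classical in
theorem EE_erase {k : ℕ} {M : Finset (Sym2 V)} (hM : M ∈ mats G k) {a b : V}
    (h : s(a, b) ∈ M) :
    EE G (M.erase s(a, b)) = EE G M + 2 + 2 * ((D G M a : ℝ) + D G M b) := by
  have hab := edge_mem hM h
  have hfa := mem_free_erase hM h
  have hfree : free (M.erase s(a, b)) = insert a (insert b (free M)) := by
    ext v
    have h1 := mem_free_insert (N := M.erase s(a, b)) (a := a) (b := b) (v := v)
    rw [Finset.insert_erase h] at h1
    simp only [Finset.mem_insert]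
    rw [h1]
    constructor
    · intro hv
      by_cases hva : v = a
      · exact Or.inl hva
      · by_cases hvb : v = b
        · exact Or.inr (Or.inl hvb)
        · exact Or.inr (Or.inr ⟨hv, hva, hvb⟩)
    · rintro (rfl | rfl | hv)
      · exact hfa.1
      · exact hfa.2
      · exact hv.1
  have ha : a ∉ free M := fun h' => mem_free.1 h' _ h (by simp)
  have hb : b ∉ free M := fun h' => mem_free.1 h' _ h (by simp)
  have hanb : a ∉ insert b (free M) := by
    rw [Finset.mem_insert, not_or]; exact ⟨hab.ne, ha⟩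
  -- degrees
  have hdeg : ∀ v, (D G (M.erase s(a, b)) v : ℝ) = D G M v + (if G.Adj v a then 1 else 0) +
      (if G.Adj v b then 1 else 0) := by
    intro v
    have e : ∀ N : Finset (Sym2 V), (D G N v : ℝ) = ∑ u ∈ free N, (if G.Adj v u then 1 else 0) := by
      intro N
      unfold D nb
      rw [Finset.card_filter]
      push_cast
      rfl
    rw [e, e, hfree, Finset.sum_insert hanb, Finset.sum_insert hb]
    ring
  have hsum : ∀ c : V, ∑ v ∈ free M, (if G.Adj v c then (1 : ℝ) else 0) = D G M c := by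
    intro c
    unfold D nb
    rw [Finset.card_filter]
    push_cast
    refine Finset.sum_congr rfl fun v _ => ?_
    simp only [G.adj_comm]
  have hD1 : (D G (M.erase s(a, b)) a : ℝ) = D G M a + 1 := by
    rw [hdeg, if_neg G.irrefl, if_pos hab]; ring
  have hD2 : (D G (M.erase s(a, b)) b : ℝ) = D G M b + 1 := by
    rw [hdeg, if_neg (G.irrefl (v := b)), if_pos hab.symm]; ring
  unfold EE
  rw [hfree, Finset.sum_insert hanb, Finset.sum_insert hb, hD1, hD2]
  have : ∑ x ∈ free M, (D G (M.erase s(a, b)) x : ℝ) =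
      ∑ x ∈ free M, (D G M x : ℝ) + D G M a + D G M b := by
    rw [Finset.sum_congr rfl (fun v _ => hdeg v), Finset.sum_add_distrib, Finset.sum_add_distrib,
      hsum, hsum]
  rw [this]
  ring

open scoped Classical in
theorem sum_darts_snd {k : ℕ} {M : Finset (Sym2 V)} (hM : M ∈ mats G k) (f : V → ℝ) :
    ∑ p ∈ univ.filter (fun p : V × V => s(p.1, p.2) ∈ M), f p.2 =
      ∑ a ∈ univ.filter (fun a => a ∉ free M), f a := by
  rw [← sum_darts hM f]
  refine Finset.sum_bij' (fun p _ => (p.2, p.1)) (fun p _ => (p.2, p.1)) ?_ ?_ ?_ ?_ ?_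
  · rintro ⟨a, b⟩ h
    simp only [Finset.mem_filter, Finset.mem_univ, true_and] at h ⊢
    rwa [Sym2.eq_swap]
  · rintro ⟨a, b⟩ h
    simp only [Finset.mem_filter, Finset.mem_univ, true_and] at h ⊢
    rwa [Sym2.eq_swap]
  · rintro ⟨a, b⟩ _; rfl
  · rintro ⟨a, b⟩ _; rfl
  · rintro ⟨a, b⟩ _; rfl

/-- Uncovered neighbours of covered vertices. -/
theorem sum_covered_D {r : ℕ} (hreg : ∀ v : V,
      (by classical exact (univ.filter fun u => G.Adj v u).card) = r)
    (M : Finset (Sym2 V)) :
    (by classical exact ∑ a ∈ univ.filter (fun a => a ∉ free M), (D G M a : ℝ)) =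
      r * (free M).card - EE G M := by
  classical
  have hreg' : ∀ v : V, (univ.filter fun u => G.Adj v u).card = r := by
    intro v; rw [← hreg v]
  have h0 : ∑ a, (D G M a : ℝ) = r * (free M).card := by
    have e : ∀ a, (D G M a : ℝ) = ∑ u ∈ free M, (if G.Adj a u then 1 else 0) := by
      intro a
      unfold D nb
      rw [Finset.card_filter]
      push_cast
      rfl
    rw [Finset.sum_congr rfl (fun a _ => e a), Finset.sum_comm]
    have : ∀ u ∈ free M, ∑ a : V, (if G.Adj a u then (1 : ℝ) else 0) = r := by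
      intro u _
      rw [← hreg' u, Finset.card_filter]
      push_cast
      refine Finset.sum_congr rfl fun v _ => ?_
      simp only [G.adj_comm]
    rw [Finset.sum_congr rfl this, Finset.sum_const, nsmul_eq_mul]
    ring
  have h1 := Finset.sum_filter_add_sum_filter_not (univ : Finset V) (fun a => a ∉ free M)
    (fun a => (D G M a : ℝ))
  simp only [not_not, Finset.filter_mem_eq_inter, Finset.univ_inter] at h1
  have h2 : ∑ a ∈ univ.filter (fun a => a ∉ free M), (D G M a : ℝ) =
      r * (free M).card - EE G M := by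
    unfold EE
    linarith
  exact h2

/-- The ratio bound. -/
theorem ratio_bound {r n : ℕ} (hV : Fintype.card V = 2 * n) (hreg : ∀ v : V,
      (by classical exact (univ.filter fun u => G.Adj v u).card) = r) (i : ℕ) :
    ((i : ℝ) + 2) * (n - 1) * (mats G (i + 2)).card ≤
      (n - (i + 1)) * ((i + 1) + r * (n - (i + 1) - 1)) * (mats G (i + 1)).card := by
  classical
  have hreg' : ∀ v : V, (univ.filter fun u => G.Adj v u).card = r := by
    intro v; rw [← hreg v]
  -- (a)
  have ha : ∑ N ∈ mats G i, ∑ v ∈ free N, ((D G N v : ℝ) * (D G N v - 1)) =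
      r * (2 * n - 2 * (i + 1)) * (mats G (i + 1)).card -
        2 * ((i + 1 : ℕ) + 1) * (mats G (i + 1 + 1)).card := by
    have h1 := step_exact hreg' i (fun _ => (1 : ℝ))
    have h2 : Phi G (i + 1) (fun d => ((r : ℝ) - d) * 1) =
        r * (2 * n - 2 * (i + 1)) * (mats G (i + 1)).card -
        2 * ((i + 1 : ℕ) + 1) * (mats G (i + 1 + 1)).card := by
      have h3 := Phi_add (G := G) (i + 1) (fun _ => (r : ℝ)) (fun d => (-1) * (d : ℝ))
      have h4 : (fun d : ℕ => ((r : ℝ) - d) * 1) = fun d : ℕ => (r : ℝ) + (-1) * (d : ℝ) := by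
        funext d; ring
      rw [h4, h3, Phi_const, Phi_smul, Phi_D, hV]
      push_cast
      ring
    rw [← h2, h1]
    refine Finset.sum_congr rfl fun N _ => ?_
    have := sum_paths (G := G) N (fun _ => (1 : ℝ))
    rw [this]
    refine Finset.sum_congr rfl fun a _ => ?_
    rw [Finset.sum_const, nsmul_eq_mul]
    unfold D
    ring
  -- (b)
  have hb : ∑ N ∈ mats G i, (EE G N) ^ 2 =
      ∑ M ∈ mats G (i + 1), ((2 * (i + 1)) * (EE G M + 2) +
        4 * (r * (2 * n - 2 * (i + 1)) - EE G M)) := by
    have h1 := sum_insert (G := G) i (fun M p => EE G (M.erase s(p.1, p.2)))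
    have h2 : ∑ N ∈ mats G i, ∑ p ∈ univ.filter
        (fun p : V × V => p.1 ∈ free N ∧ p.2 ∈ free N ∧ G.Adj p.1 p.2),
        EE G ((insert s(p.1, p.2) N).erase s(p.1, p.2)) = ∑ N ∈ mats G i, (EE G N) ^ 2 := by
      refine Finset.sum_congr rfl fun N _ => ?_
      have h3 : ∀ p ∈ univ.filter
          (fun p : V × V => p.1 ∈ free N ∧ p.2 ∈ free N ∧ G.Adj p.1 p.2),
          EE G ((insert s(p.1, p.2) N).erase s(p.1, p.2)) = EE G N := by
        rintro ⟨a, b⟩ hp
        simp only [Finset.mem_filter, Finset.mem_univ, true_and] at hp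
        have hnot : s(a, b) ∉ N := fun h' => mem_free.1 hp.1 _ h' (by simp)
        simp only [Finset.erase_insert hnot]
      rw [Finset.sum_congr rfl h3, sum_pairs N (fun _ => EE G N)]
      have h4 : ∀ a ∈ free N, ∑ b ∈ nb G N a, EE G N = (D G N a : ℝ) * EE G N := by
        intro a _
        rw [Finset.sum_const, nsmul_eq_mul]; rfl
      rw [Finset.sum_congr rfl h4, ← Finset.sum_mul, sq]
      rfl
    rw [← h2, ← h1]
    refine Finset.sum_congr rfl fun M hM => ?_
    have h5 : ∀ p ∈ univ.filter (fun p : V × V => s(p.1, p.2) ∈ M),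
        EE G (M.erase s(p.1, p.2)) = (EE G M + 2) + 2 * (D G M p.1 : ℝ) + 2 * (D G M p.2 : ℝ) := by
      rintro ⟨a, b⟩ hp
      simp only [Finset.mem_filter, Finset.mem_univ, true_and] at hp
      rw [EE_erase hM hp]
      ring
    rw [Finset.sum_congr rfl h5, Finset.sum_add_distrib, Finset.sum_add_distrib,
      sum_darts hM (fun _ => EE G M + 2), ← Finset.mul_sum, ← Finset.mul_sum,
      sum_darts hM (fun a => (D G M a : ℝ)), sum_darts_snd hM (fun a => (D G M a : ℝ))]
    have h6 := sum_covered_D hreg M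
    have h7 := card_covered hM
    have h8 := card_free hM
    have h8' : ((free M).card : ℝ) = 2 * n - 2 * (i + 1) := by
      have : ((free M).card : ℝ) + 2 * ((i + 1 : ℕ) : ℝ) = ((2 * n : ℕ) : ℝ) := by
        rw [← hV]; exact_mod_cast h8
      push_cast at this
      linarith
    have h7' : ((univ.filter (fun a => a ∉ free M)).card : ℝ) = 2 * (i + 1) := by
      have : (univ.filter (fun a => a ∉ free M)).card = 2 * (i + 1) := h7
      rw [this]; push_cast; ring
    have h6' : ∑ a ∈ univ.filter (fun a => a ∉ free M), (D G M a : ℝ) =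
      r * (free M).card - EE G M := h6
    rw [h6', Finset.sum_const, nsmul_eq_mul, h7', h8']
    ring
  -- (c)
  have hc : ∀ N ∈ mats G i, (EE G N) ^ 2 ≤ (2 * n - 2 * i) *
      ∑ v ∈ free N, ((D G N v : ℝ) * (D G N v - 1) + D G N v) := by
    intro N hN
    have h1 := sq_sum_le_card_mul_sum_sq (s := free N) (f := fun v => (D G N v : ℝ))
    have h2 := card_free hN
    have h2' : ((free N).card : ℝ) = 2 * n - 2 * i := by
      have : ((free N).card : ℝ) + 2 * (i : ℝ) = ((2 * n : ℕ) : ℝ) := by
        rw [← hV]; exact_mod_cast h2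
      push_cast at this
      linarith
    rw [h2'] at h1
    refine h1.trans (le_of_eq ?_)
    congr 1
    refine Finset.sum_congr rfl fun v _ => ?_
    ring
  have hsum := Finset.sum_le_sum hc
  rw [hb, ← Finset.mul_sum] at hsum
  have hsplit : ∑ N ∈ mats G i, ∑ v ∈ free N, ((D G N v : ℝ) * (D G N v - 1) + D G N v) =
      (r * (2 * n - 2 * (i + 1)) * (mats G (i + 1)).card -
        2 * ((i + 1 : ℕ) + 1) * (mats G (i + 1 + 1)).card) +
        2 * (i + 1) * (mats G (i + 1)).card := by
    rw [← ha, ← sum_EE i, ← Finset.sum_add_distrib]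
    refine Finset.sum_congr rfl fun N _ => ?_
    rw [Finset.sum_add_distrib]
    rfl
  rw [hsplit] at hsum
  have hleft : ∑ M ∈ mats G (i + 1), ((2 * ((i : ℝ) + 1)) * (EE G M + 2) +
        4 * (r * (2 * n - 2 * (i + 1)) - EE G M)) =
      (2 * (i + 1) - 4) * (2 * ((i + 1 : ℕ) + 1) * (mats G (i + 1 + 1)).card) +
        (4 * (i + 1) + 4 * (r * (2 * n - 2 * (i + 1)))) * (mats G (i + 1)).card := by
    rw [← sum_EE (i + 1), Finset.mul_sum]
    have : ∀ M ∈ mats G (i + 1), (2 * ((i : ℝ) + 1)) * (EE G M + 2) +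
        4 * (r * (2 * n - 2 * (i + 1)) - EE G M) = (2 * (i + 1) - 4) * EE G M +
        (4 * (i + 1) + 4 * (r * (2 * n - 2 * (i + 1)))) := by
      intro M _
      ring
    rw [Finset.sum_congr rfl this, Finset.sum_add_distrib, Finset.sum_const, nsmul_eq_mul]
    ring
  rw [hleft] at hsum
  push_cast at hsum
  have e1 : i + 1 + 1 = i + 2 := rfl
  rw [e1] at hsum
  nlinarith [hsum]

end

end Pool.Agent.Lib.MP_eeed5c_co
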