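import Mathlib

/-!
The weights of the linear program: a triangular array and its growth.
-/

namespace Pool.Agent.Lib.MP_eeed5c_co

open Finset

/-- The array of weights. -/
noncomputable def nn (r : ℕ) : ℕ → ℕ → ℝ
  | 0, l => if l = 0 then 1 else 0
  | (t + 1), l => ∑ m ∈ range r,
      ((if l ≤ m then (m : ℝ) else 0) + (if l ≤ m + 1 then (r : ℝ) - 1 - m else 0)) * nn r t m

theorem nn_nonneg (r t l : ℕ) : 0 ≤ nn r t l := by
  induction t generalizing l with
  | zero => unfold nn; split <;> norm_num
  | succ t ih =>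
    rw [nn]
    refine Finset.sum_nonneg fun m hm => mul_nonneg ?_ (ih m)
    have h1 : (m : ℝ) + 1 ≤ r := by exact_mod_cast Finset.mem_range.1 hm
    have h2 : (0 : ℝ) ≤ m := Nat.cast_nonneg m
    split <;> split <;> linarith

theorem nn_ge {r t l : ℕ} (hr : 1 ≤ r) (hl : r ≤ l) : nn r t l = 0 := by
  cases t with
  | zero => rw [nn, if_neg (by omega)]
  | succ t =>
    rw [nn]
    refine Finset.sum_eq_zero fun m hm => ?_
    have hm' := Finset.mem_range.1 hm
    rw [if_neg (by omega)]
    by_cases h : l ≤ m + 1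
    · have : (m : ℝ) + 1 = r := by
        have : m + 1 = r := by omega
        exact_mod_cast this
      rw [if_pos h, ← this]; ring
    · rw [if_neg h]; ring

theorem nn_zero_one (r t : ℕ) : nn r (t + 1) 0 = nn r (t + 1) 1 := by
  rw [nn, nn]
  refine Finset.sum_congr rfl fun m _ => ?_
  rw [if_pos (Nat.zero_le _), if_pos (Nat.zero_le _), if_pos (show 1 ≤ m + 1 by omega)]
  rcases Nat.eq_zero_or_pos m with rfl | h
  · simp
  · rw [if_pos (show 1 ≤ m from h)]

theorem nn_zero_sum (r t : ℕ) : nn r (t + 1) 0 = ((r : ℝ) - 1) * ∑ m ∈ range r, nn r t m := by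
  rw [nn, Finset.mul_sum]
  refine Finset.sum_congr rfl fun m _ => ?_
  rw [if_pos (Nat.zero_le _), if_pos (Nat.zero_le _)]
  ring

theorem nn_diff {r t l : ℕ} (hl : l + 1 ≤ r) : nn r (t + 1) (l + 1) =
    nn r (t + 1) (l + 2) + (((l : ℝ) + 1) * nn r t (l + 1) + ((r : ℝ) - (l + 1)) * nn r t l) := by
  have key : nn r (t + 1) (l + 1) - nn r (t + 1) (l + 2) =
      ∑ m ∈ range r, ((if m = l + 1 then ((l : ℝ) + 1) * nn r t (l + 1) else 0) +
        (if m = l then ((r : ℝ) - (l + 1)) * nn r t l else 0)) := by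
    rw [nn, nn, ← Finset.sum_sub_distrib]
    refine Finset.sum_congr rfl fun m _ => ?_
    by_cases h1 : m = l + 1
    · subst h1
      rw [if_pos (le_refl _), if_pos (show l + 1 ≤ l + 1 + 1 by omega),
        if_neg (show ¬ l + 2 ≤ l + 1 by omega), if_pos (show l + 2 ≤ l + 1 + 1 by omega),
        if_pos rfl, if_neg (show ¬ l + 1 = l by omega)]
      push_cast
      ring
    · by_cases h2 : m = l
      · subst h2
        rw [if_neg (show ¬ m + 1 ≤ m by omega), if_pos (le_refl _),
          if_neg (show ¬ m + 2 ≤ m by omega), if_neg (show ¬ m + 2 ≤ m + 1 by omega),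
          if_neg (show ¬ m = m + 1 by omega), if_pos rfl]
        ring
      · rw [if_neg h1, if_neg h2]
        by_cases h3 : l + 2 ≤ m
        · rw [if_pos (show l + 1 ≤ m by omega), if_pos (show l + 1 ≤ m + 1 by omega), if_pos h3,
            if_pos (show l + 2 ≤ m + 1 by omega)]
          ring
        · rw [if_neg (show ¬ l + 1 ≤ m by omega), if_neg (show ¬ l + 1 ≤ m + 1 by omega), if_neg h3,
            if_neg (show ¬ l + 2 ≤ m + 1 by omega)]
          ring
  rw [Finset.sum_add_distrib, Finset.sum_ite_eq', Finset.sum_ite_eq',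
    if_pos (Finset.mem_range.2 (show l < r by omega))] at key
  by_cases h : l + 1 < r
  · rw [if_pos (Finset.mem_range.2 h)] at key
    linarith
  · rw [if_neg (fun h' => h (Finset.mem_range.1 h'))] at key
    rw [nn_ge (t := t) (l := l + 1) (by omega) (by omega)]
    linarith

/-- The comparison sequence. -/
noncomputable def th (l : ℕ) : ℝ := ((l : ℝ) + 1) / 2 ^ l

theorem th_pos (l : ℕ) : 0 < th l := by
  unfold th; positivity

/-- The quotients. -/
noncomputable def ph (r t l : ℕ) : ℝ := nn r t l / th l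

theorem nn_eq (r t l : ℕ) : nn r t l = th l * ph r t l := by
  unfold ph
  field_simp [(th_pos l).ne']

theorem ph_nonneg (r t l : ℕ) : 0 ≤ ph r t l := div_nonneg (nn_nonneg r t l) (th_pos l).le

/-- Tail sums of the comparison. -/
noncomputable def SS (r l : ℕ) : ℝ := (((l : ℝ) + 1) * (2 * r - l) - 2) * (2 / 2 ^ l)

/-- Terms of the comparison. -/
noncomputable def hh (r l : ℕ) : ℝ := (l : ℝ) * (2 * r + 1 - l) / 2 ^ l

theorem SS_succ (r l : ℕ) : SS r l = SS r (l + 1) + hh r l := by
  unfold SS hh
  rw [pow_succ]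
  push_cast
  field_simp
  ring

theorem gterm (r l : ℕ) : ((l : ℝ) + 1) * th (l + 1) + ((r : ℝ) - (l + 1)) * th l =
    hh r (l + 1) := by
  unfold th hh
  rw [pow_succ]
  push_cast
  field_simp
  ring

theorem nn_upper {r t : ℕ} (hph : ∀ l, ph r t (l + 1) ≤ ph r t l) (j : ℕ) :
    ∀ l, l + 1 + j = r → nn r (t + 1) (l + 1) ≤ ph r t l * SS r (l + 1) := by
  induction j with
  | zero =>
    intro l hl
    rw [nn_ge (by omega) (by omega)]
    refine mul_nonneg (ph_nonneg _ _ _) ?_
    unfold SS
    have h1 : (r : ℝ) = l + 1 := by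
      have : r = l + 1 := by omega
      exact_mod_cast this
    rw [h1]
    push_cast
    refine mul_nonneg ?_ (by positivity)
    have : (0 : ℝ) ≤ l := Nat.cast_nonneg l
    nlinarith
  | succ j ih =>
    intro l hl
    have h1 := ih (l + 1) (by omega)
    rw [nn_diff (show l + 1 ≤ r by omega)]
    have h2 : nn r t (l + 1) ≤ th (l + 1) * ph r t l := by
      rw [nn_eq]
      exact mul_le_mul_of_nonneg_left (hph l) (th_pos _).le
    have h3 : nn r t l = th l * ph r t l := nn_eq _ _ _
    have h4 : (0 : ℝ) ≤ (l : ℝ) + 1 := by positivity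
    have h5 : 0 ≤ SS r (l + 2) := by
      unfold SS
      have h6 : (l : ℝ) + 2 ≤ r := by
        have : l + 2 ≤ r := by omega
        exact_mod_cast this
      push_cast
      refine mul_nonneg ?_ (by positivity)
      nlinarith
    have h6 : nn r (t + 1) (l + 2) ≤ ph r t l * SS r (l + 2) := by
      refine h1.trans ?_
      exact mul_le_mul_of_nonneg_right (hph l) h5
    have h7 := gterm r l
    rw [SS_succ r (l + 1), ← h7, h3]
    have h8 := mul_le_mul_of_nonneg_left h2 h4
    have e1 : SS r (l + 1 + 1) = SS r (l + 2) := rfl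
    rw [e1]
    nlinarith [h6, h8]

theorem ph_anti {r : ℕ} (hr : 1 ≤ r) (t : ℕ) : ∀ l, ph r t (l + 1) ≤ ph r t l := by
  induction t with
  | zero =>
    intro l
    have : ph r 0 (l + 1) = 0 := by
      unfold ph
      rw [nn, if_neg (by omega), zero_div]
    rw [this]
    exact ph_nonneg _ _ _
  | succ t ih =>
    intro l
    rcases Nat.eq_zero_or_pos l with rfl | hl
    · unfold ph
      rw [nn_zero_one]
      have h1 : th 0 = 1 := by unfold th; norm_num
      have h2 : th (0 + 1) = 1 := by unfold th; norm_num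
      rw [h1, h2]
    · obtain ⟨m, rfl⟩ : ∃ m, l = m + 1 := ⟨l - 1, by omega⟩
      by_cases hmr : r ≤ m + 1 + 1
      · have : ph r (t + 1) (m + 1 + 1) = 0 := by
          unfold ph
          rw [nn_ge hr hmr, zero_div]
        rw [this]
        exact ph_nonneg _ _ _
      · have h1 := nn_upper (t := t) ih (r - (m + 2)) (m + 1) (by omega)
        have h2 := nn_diff (r := r) (t := t) (l := m) (by omega)
        have h3 : ph r t (m + 1) * SS r (m + 1 + 1) * ((m : ℝ) + 1) ≤
            ((m : ℝ) + 3) * (((m : ℝ) + 1) * nn r t (m + 1) + ((r : ℝ) - (m + 1)) * nn r t m) := by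
          have h4 : ph r t (m + 1) * hh r (m + 1) ≤
              ((m : ℝ) + 1) * nn r t (m + 1) + ((r : ℝ) - (m + 1)) * nn r t m := by
            rw [← gterm, nn_eq r t (m + 1), nn_eq r t m]
            have h5 : 0 ≤ ((r : ℝ) - (m + 1)) * th m := by
              refine mul_nonneg ?_ (th_pos _).le
              have : m + 1 ≤ r := by omega
              have : ((m : ℝ) + 1) ≤ r := by exact_mod_cast this
              linarith
            have h6 := mul_le_mul_of_nonneg_left (ih m) h5
            nlinarith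
          have h7 : SS r (m + 1 + 1) * ((m : ℝ) + 1) ≤ ((m : ℝ) + 3) * hh r (m + 1) := by
            unfold SS hh
            rw [pow_succ 2 (m + 1)]
            have hp : (0 : ℝ) < 2 ^ (m + 1) := by positivity
            have e : ((((m + 1 + 1 : ℕ) : ℝ) + 1) * (2 * r - ((m + 1 + 1 : ℕ) : ℝ)) - 2) *
                (2 / (2 ^ (m + 1) * 2)) * ((m : ℝ) + 1) =
                (((((m + 1 + 1 : ℕ) : ℝ) + 1) * (2 * r - ((m + 1 + 1 : ℕ) : ℝ)) - 2) *
                  ((m : ℝ) + 1)) / 2 ^ (m + 1) := by
              field_simp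
            rw [e, mul_div_assoc', div_le_div_iff_of_pos_right hp]
            push_cast
            have hm0 : (0 : ℝ) ≤ m := Nat.cast_nonneg m
            nlinarith
          have h8 := ph_nonneg r t (m + 1)
          calc ph r t (m + 1) * SS r (m + 1 + 1) * ((m : ℝ) + 1)
              = ph r t (m + 1) * (SS r (m + 1 + 1) * ((m : ℝ) + 1)) := by ring
            _ ≤ ph r t (m + 1) * (((m : ℝ) + 3) * hh r (m + 1)) :=
                mul_le_mul_of_nonneg_left h7 h8
            _ = ((m : ℝ) + 3) * (ph r t (m + 1) * hh r (m + 1)) := by ring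
            _ ≤ _ := mul_le_mul_of_nonneg_left h4 (by positivity)
        -- conclude
        unfold ph
        rw [div_le_div_iff₀ (th_pos _) (th_pos _)]
        have h9 : ((m : ℝ) + 1) * nn r (t + 1) (m + 1 + 1) ≤
            ((m : ℝ) + 3) * (((m : ℝ) + 1) * nn r t (m + 1) + ((r : ℝ) - (m + 1)) * nn r t m) := by
          refine le_trans ?_ h3
          have := mul_le_mul_of_nonneg_right h1 (show (0 : ℝ) ≤ (m : ℝ) + 1 by positivity)
          linarith
        have e1 : nn r (t + 1) (m + 2) = nn r (t + 1) (m + 1 + 1) := rfl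
        rw [e1] at h2
        have h10 : 2 * ((m : ℝ) + 2) * nn r (t + 1) (m + 1 + 1) ≤
            ((m : ℝ) + 3) * nn r (t + 1) (m + 1) := by
          rw [h2]; linarith
        have e2 : th (m + 1 + 1) = ((m : ℝ) + 3) / (2 ^ (m + 1) * 2) := by
          unfold th
          rw [pow_succ 2 (m + 1)]
          push_cast
          ring
        have e3 : th (m + 1) = ((m : ℝ) + 2) / 2 ^ (m + 1) := by
          unfold th
          push_cast
          ring
        rw [e2, e3, mul_div_assoc', mul_div_assoc', div_le_div_iff₀ (by positivity) (by positivity)]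
        have hp : (0 : ℝ) < 2 ^ (m + 1) := by positivity
        nlinarith [mul_le_mul_of_nonneg_left h10 hp.le]

end Pool.Agent.Lib.MP_eeed5c_co
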